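import Pool.Agent.P.MP_012ca0_co.Ev.Stab

/-! The second order approximation of the normalised minors. -/

set_option autoImplicit false
set_option linter.unusedSectionVars false

open Finset

noncomputable section

namespace Pool.Agent.P.MP_012ca0_co.Ev

variable {V : Type} [Fintype V] [DecidableEq V] {Y : V → V → ℝ}

/-- the resolvent kernel -/
structure Res (Y α : V → V → ℝ) : Prop where
  f1 : ∀ u j, (Fintype.card V : ℝ) ^ 2 * α u j =
    (Fintype.card V : ℝ) ^ 2 * Y u j + ∑ v, Y u v * ∑ x, Y x v * α x j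
  f2 : ∀ i v, (Fintype.card V : ℝ) ^ 2 * α i v =
    (Fintype.card V : ℝ) ^ 2 * Y i v + ∑ u, Y u v * ∑ w, Y u w * α i w
  s1 : ∀ v j, ∑ x, Y x v * α x j = ∑ x, Y x j * α x v
  s2 : ∀ u i, ∑ w, Y u w * α i w = ∑ w, Y i w * α u w
  sol : ∀ g : V → ℝ, ∃ y : V → ℝ, ∀ u, (Fintype.card V : ℝ) ^ 2 * y u =
    (Fintype.card V : ℝ) ^ 2 * g u + ∑ v, Y u v * ∑ x, Y x v * y x

/-- solutions of the linearised recursion -/
structure Sol (Y α φ ψ : V → V → ℝ) (a b : V → ℝ) : Prop where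
  bα : ∀ u v, |α u v| ≤ 3
  bφ : ∀ u v, |φ u v| ≤ 4
  bψ : ∀ u v, |ψ u v| ≤ 4
  ba : ∀ u, |a u| ≤ 30
  bb : ∀ u, |b u| ≤ 30
  sφ : ∀ u v, φ u v = φ v u
  sψ : ∀ u v, ψ u v = ψ v u
  eJ : ∀ u j, Fintype.card V * α u j + ∑ v, (1 + Y u v) * ψ v j = Fintype.card V * (Y u j + 1 / 2)
  eI : ∀ u i, Fintype.card V * φ u i + ∑ v, (1 + Y u v) * α i v = Fintype.card V * (1 / 2)
  eO : ∀ u, Fintype.card V * a u + ∑ v, (1 + Y u v) * (α u v + b v) = 0
  cI : ∀ v i, Fintype.card V * α i v + ∑ u, (1 + Y u v) * φ u i = Fintype.card V * (Y i v + 1 / 2)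
  cJ : ∀ v j, Fintype.card V * ψ v j + ∑ u, (1 + Y u v) * α u j = Fintype.card V * (1 / 2)
  cO : ∀ v, Fintype.card V * b v + ∑ u, (1 + Y u v) * (α u v + a u) = 0

lemma Good.sup_bound (h : Good Y) {y g : V → ℝ} {G : ℝ} (hg : ∀ u, |g u| ≤ G)
    (e : ∀ u, (Fintype.card V : ℝ) ^ 2 * y u =
      (Fintype.card V : ℝ) ^ 2 * g u + ∑ v, Y u v * ∑ x, Y x v * y x) (u : V) : |y u| ≤ 3 * G := by
  set N : ℝ := (Fintype.card V : ℝ) with hN
  have hN0 : 0 < N := by rw [hN]; exact_mod_cast Fintype.card_pos_iff.2 ⟨u⟩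
  have G0 : 0 ≤ G := (abs_nonneg _).trans (hg u)
  set t : V → ℝ := fun v => ∑ x, Y x v * y x with ht
  have t1 : ∑ v, t v ^ 2 ≤ N ^ 2 / 2 * ∑ x, y x ^ 2 := by
    refine le_trans (le_of_eq (sum_congr rfl fun v _ => ?_)) (h.op y)
    simp only [ht]
    rw [← neg_sq, ← sum_neg_distrib]
    congr 1
    exact sum_congr rfl fun x _ => by rw [h.skew v x]; ring
  have t2 : N ^ 2 * ∑ x, y x ^ 2 = N ^ 2 * ∑ x, g x * y x + ∑ v, t v ^ 2 := by
    have : ∑ v, t v ^ 2 = ∑ x, (∑ v, Y x v * t v) * y x := by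
      simp only [sum_mul]
      rw [sum_comm]
      refine sum_congr rfl fun v _ => ?_
      rw [sq]
      nth_rewrite 1 [ht]
      rw [sum_mul]
      exact sum_congr rfl fun x _ => by ring
    rw [this, mul_sum, mul_sum, ← sum_add_distrib]
    exact sum_congr rfl fun x _ => by rw [sq (y x), ← mul_assoc, e x]; ring
  have t3 : ∑ x, g x * y x ≤ N * G ^ 2 + (∑ x, y x ^ 2) / 4 := by
    have : N * G ^ 2 = ∑ _x : V, G ^ 2 := by simp [hN]
    rw [this, sum_div, ← sum_add_distrib]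
    refine sum_le_sum fun x _ => ?_
    have := sq_le_sq' (abs_le.1 (hg x)).1 (abs_le.1 (hg x)).2
    nlinarith [sq_nonneg (g x - y x / 2)]
  have t4 : ∑ x, y x ^ 2 ≤ 4 * N * G ^ 2 := by
    have := mul_le_mul_of_nonneg_left t3 (sq_nonneg N)
    refine le_of_mul_le_mul_left ?_ (show 0 < N ^ 2 by positivity)
    nlinarith
  have t5 : (∑ v, Y u v * t v) ^ 2 ≤ (2 * N ^ 2 * G) ^ 2 := by
    have a : ∑ v, Y u v ^ 2 ≤ N := (sum_le_sum fun v _ => h.sq_le u v).trans (by simp [hN])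
    calc _ ≤ (∑ v, Y u v ^ 2) * ∑ v, t v ^ 2 := sum_mul_sq_le_sq_mul_sq _ _ _
      _ ≤ N * (N ^ 2 / 2 * (4 * N * G ^ 2)) :=
        mul_le_mul a (t1.trans (by gcongr)) (sum_nonneg fun _ _ => sq_nonneg _) hN0.le
      _ ≤ _ := by nlinarith [sq_nonneg (N ^ 2 * G)]
  obtain ⟨t6, t7⟩ := abs_le_of_sq_le_sq' t5 (by positivity)
  obtain ⟨t8, t9⟩ := abs_le.1 (hg u)
  have p : 0 < N ^ 2 := by positivity
  have e1 := e u
  rw [abs_le]
  constructor <;> refine le_of_mul_le_mul_left ?_ p <;> nlinarith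

lemma avg_bound {f g : V → ℝ} {G : ℝ} (hf : ∀ u, |f u| ≤ 1) (hg : ∀ u, |g u| ≤ G)
    (hN : (0 : ℝ) < Fintype.card V) : |(∑ u, f u * g u) / Fintype.card V| ≤ G := by
  rw [abs_div, abs_of_pos hN, div_le_iff₀ hN]
  refine (abs_sum_le_sum_abs _ _).trans ((sum_le_sum fun u _ => show _ ≤ G from ?_).trans
    (by simp [mul_comm]))
  rw [abs_mul]
  nlinarith [hf u, hg u, abs_nonneg (f u), abs_nonneg (g u)]

lemma Good.kill_row (h : Good Y) (f : V → ℝ) : ∑ v, ∑ x, Y x v * f x = 0 := by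
  rw [sum_comm]; simp [← sum_mul, h.row]

lemma Good.kill_col (h : Good Y) (f : V → ℝ) : ∑ u, ∑ w, Y u w * f w = 0 := by
  rw [sum_comm]; simp [← sum_mul, h.col]

lemma exists_sol (h : Good Y) {α : V → V → ℝ} (H : Res Y α) (hN0 : (0 : ℝ) < Fintype.card V) :
    ∃ φ ψ a b, Sol Y α φ ψ a b := by
  set N : ℝ := (Fintype.card V : ℝ) with hN
  have p : N ^ 2 ≠ 0 := by positivity
  have bα : ∀ u v, |α u v| ≤ 3 := fun u v => by
    simpa using h.sup_bound (y := fun x => α x v) (fun x => h.bd x v) (fun x => H.f1 x v) u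
  have r0 : ∀ i, ∑ v, α i v = 0 := fun i => by
    refine mul_left_cancel₀ p ?_
    rw [mul_sum, sum_congr rfl fun v _ => H.f2 i v, sum_add_distrib, h.kill_row, ← mul_sum, h.row]
    simp
  have c0 : ∀ j, ∑ u, α u j = 0 := fun j => by
    refine mul_left_cancel₀ p ?_
    rw [mul_sum, sum_congr rfl fun u _ => H.f1 u j, sum_add_distrib, h.kill_col, ← mul_sum, h.col]
    simp
  set r : V → ℝ := fun u => (∑ v, Y u v * α u v) / N with hr
  set c : V → ℝ := fun v => (∑ u, Y u v * α u v) / N with hc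
  set τ : ℝ := (∑ u, 1 * r u) / N with hτ
  have br : ∀ u, |r u| ≤ 3 := fun u => avg_bound (h.bd u) (bα u) hN0
  have bc : ∀ v, |c v| ≤ 3 := fun v => avg_bound (fun u => h.bd u v) (fun u => bα u v) hN0
  have bτ : |τ| ≤ 3 := avg_bound (by simp) br hN0
  set g : V → ℝ := fun u => (∑ v, Y u v * c v) / N - r u + τ with hg
  have bg : ∀ u, |g u| ≤ 9 := fun u => by
    have a := abs_le.1 (avg_bound (h.bd u) bc hN0)
    have b := abs_le.1 (br u)
    have d := abs_le.1 bτ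
    rw [abs_le]
    constructor <;> simp only [hg] <;> linarith [a.1, a.2, b.1, b.2, d.1, d.2]
  obtain ⟨a, ha⟩ := H.sol g
  have ba : ∀ u, |a u| ≤ 27 := fun u => (h.sup_bound bg ha u).trans (by norm_num)
  have sr : ∑ u, r u = N * τ := by rw [hτ]; simp only [one_mul]; field_simp
  have sc : ∑ v, c v = N * τ := by
    rw [← sr]; simp only [hr, hc, ← sum_div]; rw [sum_comm]
  have a0 : ∑ u, a u = 0 := by
    refine mul_left_cancel₀ p ?_
    rw [mul_sum, sum_congr rfl fun u _ => ha u, sum_add_distrib, h.kill_col, ← mul_sum]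
    simp only [hg, sum_add_distrib, sum_sub_distrib, ← sum_div, h.kill_col, sr]
    simp [hN]
  have half : ∀ s : ℝ, |s| ≤ 3 → |1 / 2 - s| ≤ 4 := fun s hs => by
    rw [abs_le] at *; constructor <;> linarith [hs.1, hs.2]
  refine ⟨fun u i => 1 / 2 - (∑ w, Y u w * α i w) / N, fun v j => 1 / 2 - (∑ x, Y x v * α x j) / N,
    a, fun v => -c v - (∑ x, Y x v * a x) / N, bα,
    fun u i => half _ (avg_bound (h.bd u) (bα i) hN0),
    fun v j => half _ (avg_bound (fun x => h.bd x v) (fun x => bα x j) hN0),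
    fun u => (ba u).trans (by norm_num), fun v => ?_, fun u i => by rw [H.s2],
    fun v j => by rw [H.s1], fun u j => ?_, fun u i => ?_, fun u => ?_, fun v i => ?_,
    fun v j => ?_, fun v => ?_⟩
  · have a1 := abs_le.1 (avg_bound (fun x => h.bd x v) ba hN0)
    have b := abs_le.1 (bc v)
    rw [abs_le]
    constructor <;> linarith [a1.1, a1.2, b.1, b.2]
  · have := H.f1 u j
    simp only [add_mul, one_mul, mul_sub, sum_add_distrib, sum_sub_distrib, ← sum_div, ← sum_mul,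
      h.row, h.kill_row, ← mul_div_assoc, sum_const, card_univ, nsmul_eq_mul, ← hN] at this ⊢
    field_simp
    linarith
  · simp only [add_mul, one_mul, sum_add_distrib, r0, ← hN]
    field_simp
    ring
  · have := ha u
    simp only [add_mul, one_mul, mul_add, mul_sub, mul_neg, sum_add_distrib, sum_sub_distrib,
      sum_neg_distrib, ← sum_div, h.kill_row, ← mul_div_assoc, r0, sc, ← hN]
    simp only [hg, hr, ← hN] at this
    field_simp at this ⊢
    linarith
  · have := H.f2 i v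
    simp only [add_mul, one_mul, mul_sub, sum_add_distrib, sum_sub_distrib, ← sum_div, ← sum_mul,
      h.col, h.kill_col, ← mul_div_assoc, sum_const, card_univ, nsmul_eq_mul, ← hN] at this ⊢
    field_simp
    linarith
  · simp only [add_mul, one_mul, sum_add_distrib, c0, ← hN]
    field_simp
    ring
  · simp only [add_mul, one_mul, mul_add, sum_add_distrib, c0, a0, hc, ← hN]
    field_simp
    ring

end Pool.Agent.P.MP_012ca0_co.Ev
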