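import Pool.Agent.P.MP_012ca0_co.Ev.Per

/-! Skew matrices with bounded entries and zero row sums. -/

set_option autoImplicit false
set_option linter.unusedSectionVars false

open Finset

noncomputable section

namespace Pool.Agent.P.MP_012ca0_co.Ev

variable {V : Type} [Fintype V] [DecidableEq V]

/-- skew, bounded by one, zero row sums -/
structure Good (Y : V → V → ℝ) : Prop where
  bd : ∀ u v, |Y u v| ≤ 1
  skew : ∀ u v, Y v u = -Y u v
  row : ∀ u, ∑ v, Y u v = 0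

variable {Y : V → V → ℝ}

lemma Good.col (h : Good Y) (v : V) : ∑ u, Y u v = 0 := by
  rw [sum_congr rfl fun u _ => h.skew v u, sum_neg_distrib, h.row, neg_zero]

lemma Good.smul (h : Good Y) {z : ℝ} (hz : |z| ≤ 1) : Good fun u v => z * Y u v :=
  ⟨fun u v => by rw [abs_mul]; exact mul_le_one₀ hz (abs_nonneg _) (h.bd u v),
    fun u v => by rw [h.skew u v]; ring, fun u => by rw [← mul_sum, h.row, mul_zero]⟩

lemma Good.nonneg (h : Good Y) (u v : V) : 0 ≤ 1 + Y u v := by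
  linarith [(abs_le.1 (h.bd u v)).1]

lemma Good.le_two (h : Good Y) (u v : V) : 1 + Y u v ≤ 2 := by
  linarith [(abs_le.1 (h.bd u v)).2]

lemma Good.sq_le (h : Good Y) (u v : V) : Y u v ^ 2 ≤ 1 := by
  rw [sq_le_one_iff_abs_le_one]; exact h.bd u v

lemma Good.bilin (h : Good Y) (x y : V → ℝ) :
    (∑ u, ∑ v, Y u v * y u * x v) ^ 2 ≤
      (Fintype.card V : ℝ) ^ 2 / 2 * (∑ v, x v ^ 2) * ∑ u, y u ^ 2 := by
  set B := ∑ u, ∑ v, Y u v * y u * x v with hB
  have e1 : ∑ p : V × V, Y p.1 p.2 * (y p.1 * x p.2 - y p.2 * x p.1) = 2 * B := by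
    have : ∑ u, ∑ v, Y u v * (y v * x u) = -B := by
      rw [sum_comm, hB, ← sum_neg_distrib]
      refine sum_congr rfl fun u _ => ?_
      rw [← sum_neg_distrib]
      exact sum_congr rfl fun v _ => by rw [h.skew u v]; ring
    rw [Fintype.sum_prod_type]
    simp only [mul_sub, sum_sub_distrib, ← mul_assoc, ← hB]
    simp only [mul_assoc, this]
    ring
  have e2 := sum_mul_sq_le_sq_mul_sq univ (fun p : V × V => Y p.1 p.2)
    fun p => y p.1 * x p.2 - y p.2 * x p.1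
  have e3 : ∑ p : V × V, Y p.1 p.2 ^ 2 ≤ (Fintype.card V : ℝ) ^ 2 := by
    refine (sum_le_sum fun p _ => h.sq_le p.1 p.2).trans ?_
    simp [sq]
  have e4 : ∑ p : V × V, (y p.1 * x p.2 - y p.2 * x p.1) ^ 2 ≤
      2 * ((∑ v, x v ^ 2) * ∑ u, y u ^ 2) := by
    have a : ∑ p : V × V, (y p.1 * x p.2 - y p.2 * x p.1) ^ 2 =
        (∑ u, y u ^ 2) * (∑ v, x v ^ 2) + (∑ v, x v ^ 2) * (∑ u, y u ^ 2) -
          2 * ((∑ u, x u * y u) * ∑ u, x u * y u) := by
      rw [Fintype.sum_prod_type, sum_mul_sum, sum_mul_sum, sum_mul_sum, mul_sum, ← sum_add_distrib,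
        ← sum_sub_distrib]
      refine sum_congr rfl fun u _ => ?_
      rw [mul_sum, ← sum_add_distrib, ← sum_sub_distrib]
      exact sum_congr rfl fun v _ => by ring
    rw [a]
    nlinarith [mul_self_nonneg (∑ u, x u * y u)]
  rw [e1] at e2
  have e5 := mul_le_mul e3 e4 (sum_nonneg fun _ _ => sq_nonneg _) (sq_nonneg _)
  nlinarith

lemma Good.op (h : Good Y) (x : V → ℝ) :
    ∑ u, (∑ v, Y u v * x v) ^ 2 ≤ (Fintype.card V : ℝ) ^ 2 / 2 * ∑ v, x v ^ 2 := by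
  have e := h.bilin x fun u => ∑ v, Y u v * x v
  have e1 : ∑ u, ∑ v, Y u v * (∑ v, Y u v * x v) * x v = ∑ u, (∑ v, Y u v * x v) ^ 2 := by
    refine sum_congr rfl fun u _ => ?_
    rw [sq, sum_mul]
    exact sum_congr rfl fun v _ => by ring
  rw [e1] at e
  set T := ∑ u, (∑ v, Y u v * x v) ^ 2
  have hT : 0 ≤ T := sum_nonneg fun _ _ => sq_nonneg _
  rcases hT.eq_or_lt with h0 | h0
  · rw [← h0]
    exact mul_nonneg (by positivity) (sum_nonneg fun _ _ => sq_nonneg _)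
  · rw [sq] at e
    exact le_of_mul_le_mul_right e h0

lemma Good.kl (h : Good Y) (u w' : V) :
    ∑ w, (1 + Y u w) * ∑ x, |Y x w' - Y x w| ≤ 1.72 * (Fintype.card V : ℝ) ^ 2 := by
  set N : ℝ := (Fintype.card V : ℝ) with hN
  have e1 : ∀ w, ∑ x, |Y x w' - Y x w| ≤ N - ∑ x, Y x w * Y x w' := by
    intro w
    have : N - ∑ x, Y x w * Y x w' = ∑ x, (1 - Y x w * Y x w') := by
      rw [sum_sub_distrib]; simp [hN]
    rw [this]
    refine sum_le_sum fun x _ => ?_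
    obtain ⟨a1, a2⟩ := abs_le.1 (h.bd x w)
    obtain ⟨b1, b2⟩ := abs_le.1 (h.bd x w')
    rw [abs_le]
    constructor <;> nlinarith
  have e2 : ∑ w, (1 + Y u w) * (N - ∑ x, Y x w * Y x w') =
      N ^ 2 - ∑ x, ∑ w, Y x w * Y x w' * Y u w := by
    simp only [add_mul, one_mul, mul_sub, sum_add_distrib, sum_sub_distrib, ← sum_mul, h.row]
    rw [sum_comm (f := fun w x => Y x w * Y x w')]
    simp only [← sum_mul, h.row, zero_mul, sum_const_zero, sum_const, card_univ, nsmul_eq_mul]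
    rw [sum_comm]
    have : ∀ w, Y u w * ∑ x, Y x w * Y x w' = ∑ x, Y x w * Y x w' * Y u w := fun w => by
      rw [mul_comm, sum_mul]
    simp only [this, ← hN]
    ring
  have e3 := h.bilin (fun w => Y u w) fun x => Y x w'
  have e4 : ∑ v, Y u v ^ 2 ≤ N := (sum_le_sum fun v _ => h.sq_le u v).trans (by simp [hN])
  have e5 : ∑ x, Y x w' ^ 2 ≤ N := (sum_le_sum fun v _ => h.sq_le v w').trans (by simp [hN])
  have hN0 : 0 ≤ N := by positivity
  have e6 : N ^ 2 / 2 * (∑ v, Y u v ^ 2) * ∑ x, Y x w' ^ 2 ≤ (0.72 * N ^ 2) ^ 2 := by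
    calc _ ≤ N ^ 2 / 2 * N * N := by
          gcongr
      _ ≤ _ := by nlinarith [sq_nonneg (N ^ 2)]
  have e7 := (abs_le_of_sq_le_sq' (e3.trans e6) (by positivity)).1
  refine (sum_le_sum fun w _ => mul_le_mul_of_nonneg_left (e1 w) (h.nonneg u w)).trans ?_
  rw [e2]
  linarith

lemma sum_compl_bound {d : V → ℝ} {b : ℝ} (h1 : ∀ x, |d x| ≤ b) (R : Finset V) :
    |∑ x ∈ R, d x - ∑ x, d x| ≤ b * Rᶜ.card := by
  rw [← sum_add_sum_compl R d, sub_add_cancel_left, abs_neg]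
  refine (abs_sum_le_sum_abs _ _).trans ((sum_le_sum fun x _ => h1 x).trans ?_)
  simp [mul_comm]

lemma Good.mass_row (h : Good Y) (u : V) (C : Finset V) :
    (Fintype.card V : ℝ) - 2 * Cᶜ.card ≤ ∑ w ∈ C, (1 + Y u w) ∧
      ∑ w ∈ C, (1 + Y u w) ≤ Fintype.card V := by
  have e : ∑ w, (1 + Y u w) = Fintype.card V := by simp [sum_add_distrib, h.row]
  refine ⟨?_, e ▸ sum_le_sum_of_subset_of_nonneg (subset_univ _) fun w _ _ => h.nonneg u w⟩
  have := sum_compl_bound (d := fun w => 1 + Y u w) (b := 2)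
    (fun w => by rw [abs_of_nonneg (h.nonneg u w)]; exact h.le_two u w) C
  linarith [(abs_le.1 this).1]

lemma Good.mass_col (h : Good Y) (v : V) (R : Finset V) :
    (Fintype.card V : ℝ) - 2 * Rᶜ.card ≤ ∑ x ∈ R, (1 + Y x v) ∧
      ∑ x ∈ R, (1 + Y x v) ≤ Fintype.card V := by
  have e : ∑ w, (1 + Y w v) = Fintype.card V := by simp [sum_add_distrib, h.col]
  refine ⟨?_, e ▸ sum_le_sum_of_subset_of_nonneg (subset_univ _) fun w _ _ => h.nonneg w v⟩
  have := sum_compl_bound (d := fun w => 1 + Y w v) (b := 2)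
    (fun w => by rw [abs_of_nonneg (h.nonneg w v)]; exact h.le_two w v) R
  linarith [(abs_le.1 this).1]

lemma Good.centre (h : Good Y) (w w' : V) (R : Finset V) {ν : V → ℝ} {c o : ℝ} (ho : 0 ≤ o)
    (h1 : ∀ x ∈ R, c ≤ ν x) (h2 : ∀ x ∈ R, ν x ≤ c + o) :
    ∑ x ∈ R, (1 + Y x w') * ν x - ∑ x ∈ R, (1 + Y x w) * ν x ≤
      o * ((∑ x, |Y x w' - Y x w|) / 2 + Rᶜ.card) + 2 * Rᶜ.card * |c| := by
  set d : V → ℝ := fun x => Y x w' - Y x w with hd
  have d0 : ∑ x, d x = 0 := by simp [hd, sum_sub_distrib, h.col]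
  have d2 : ∀ x, |d x| ≤ 2 := fun x => (abs_sub _ _).trans (by linarith [h.bd x w', h.bd x w])
  have hσ := sum_compl_bound d2 R
  rw [d0, sub_zero] at hσ
  have e1 : ∑ x ∈ R, (1 + Y x w') * ν x - ∑ x ∈ R, (1 + Y x w) * ν x =
      ∑ x ∈ R, d x * (ν x - c) + (∑ x ∈ R, d x) * c := by
    rw [← sum_sub_distrib, sum_mul, ← sum_add_distrib]
    exact sum_congr rfl fun x _ => by simp only [hd]; ring
  have e2 : ∑ x ∈ R, d x * (ν x - c) ≤ ∑ x ∈ R, o * ((|d x| + d x) / 2) := by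
    refine sum_le_sum fun x hx => ?_
    have a := h1 x hx
    have b := h2 x hx
    rcases abs_cases (d x) with ⟨e, f⟩ | ⟨e, f⟩ <;> rw [e] <;> nlinarith
  have e3 : ∑ x ∈ R, |d x| ≤ ∑ x, |d x| :=
    sum_le_sum_of_subset_of_nonneg (subset_univ _) fun _ _ _ => abs_nonneg _
  rw [← mul_sum, ← sum_div, sum_add_distrib] at e2
  have e4 : (∑ x ∈ R, d x) * c ≤ 2 * Rᶜ.card * |c| := by
    refine (le_abs_self _).trans ?_
    rw [abs_mul]
    exact mul_le_mul_of_nonneg_right hσ (abs_nonneg _)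
  have e5 : o * ((∑ x ∈ R, |d x| + ∑ x ∈ R, d x) / 2) ≤ o * ((∑ x, |d x|) / 2 + Rᶜ.card) :=
    mul_le_mul_of_nonneg_left (by linarith [(abs_le.1 hσ).2]) ho
  rw [e1]
  linarith

lemma card_compl_real {C : Finset V} {k : ℕ} (h : C.card + k = Fintype.card V) :
    (Cᶜ.card : ℝ) = k := by
  rw [card_compl]; norm_cast; omega

end Pool.Agent.P.MP_012ca0_co.Ev
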