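import Pool.Agent.P.MP_012ca0_co.Ev.Per

/-! The determinant and permanent identity for weighted Hamilton cycles. -/

set_option autoImplicit false
set_option linter.unusedSectionVars false

open Finset Equiv

noncomputable section

namespace Pool.Agent.P.MP_012ca0_co.Ev

variable {V : Type} [Fintype V] [DecidableEq V]

/-- principal minor on `U` -/
def dU (M : V → V → ℝ) (U : Finset V) : ℝ :=
  (Matrix.of fun i j => if i ∈ U then M i j else if i = j then 1 else 0).det

lemma det_expand (M : V → V → ℝ) (t : ℝ) :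
    (1 + t • Matrix.of M).det = ∑ U : Finset V, t ^ U.card * dU M U := by
  rw [add_comm]
  refine (Matrix.detRowAlternating.map_add_univ (t • Matrix.of M) (1 : Matrix V V ℝ)).trans ?_
  refine sum_congr rfl fun U _ => ?_
  have e : t ^ U.card = ∏ i, if i ∈ U then t else 1 := by simp
  rw [dU, e, ← Matrix.det_mul_column]
  refine congrArg Matrix.det (?_ : (U.piecewise (t • Matrix.of M) (1 : Matrix V V ℝ) :
    Matrix V V ℝ) = _)
  ext i j
  by_cases h : i ∈ U
  · simp [h]
  · simp [h, Matrix.one_apply]

lemma dU_perm (M : V → V → ℝ) (U : Finset V) : dU M U = ∑ τ : Perm V,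
    if ∀ i, i ∉ U → τ i = i then ((Perm.sign τ : ℤ) : ℝ) * ∏ i ∈ U, M i (τ i) else 0 := by
  rw [dU, ← Matrix.det_transpose, Matrix.det_apply']
  refine sum_congr rfl fun τ _ => ?_
  simp only [Matrix.transpose_apply, Matrix.of_apply]
  split_ifs with h
  · congr 1
    rw [← prod_mul_prod_compl U, prod_congr rfl fun i hi => if_pos hi,
      prod_eq_one (s := Uᶜ) fun i hi => by
        rw [if_neg (mem_compl.1 hi), if_pos (h i (mem_compl.1 hi)).symm], mul_one]
  · push Not at h
    obtain ⟨i, h1, h2⟩ := h
    rw [prod_eq_zero (mem_univ i) (by rw [if_neg h1, if_neg (Ne.symm h2)]), mul_zero]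

lemma dU_nonneg (M : V → V → ℝ) (hM : ∀ x : V → ℝ, 0 ≤ ∑ i, x i * ∑ j, M i j * x j)
    (U : Finset V) : 0 ≤ dU M U := by
  set f : ℝ → ℝ := fun t => dU (fun i j => t * M i j + (1 - t) * if i = j then 1 else 0) U with hf
  have c : Continuous f := by
    refine Continuous.matrix_det (continuous_matrix fun i j => ?_)
    simp only [Matrix.of_apply]
    split_ifs <;> fun_prop
  have f0 : f 0 = 1 := by
    simp only [hf, dU]
    rw [← Matrix.det_one (n := V) (R := ℝ)]
    congr 1
    ext i j
    simp [Matrix.one_apply]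
  have f1 : f 1 = dU M U := by simp [hf]
  by_contra hc
  obtain ⟨t, ht, e⟩ := intermediate_value_Icc' zero_le_one c.continuousOn
    (show (0 : ℝ) ∈ Set.Icc (f 1) (f 0) by rw [f0, f1]; exact ⟨by linarith, zero_le_one⟩)
  have t1 : t < 1 := lt_of_le_of_ne ht.2 fun h => hc (by rw [← f1, ← h, e])
  obtain ⟨x, x0, hx⟩ := Matrix.exists_mulVec_eq_zero_iff.2 e
  have a : ∀ i, x i * (t * ∑ j, M i j * x j + (1 - t) * x i) = 0 := fun i => by
    have := congrFun hx i
    simp only [Matrix.mulVec, dotProduct, Matrix.of_apply, Pi.zero_apply] at this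
    by_cases h : i ∈ U
    · simp only [if_pos h, add_mul, sum_add_distrib, mul_assoc, ← mul_sum, ite_mul, one_mul,
        zero_mul, sum_ite_eq, mem_univ, if_true] at this
      rw [this, mul_zero]
    · simp only [if_neg h, ite_mul, one_mul, zero_mul, sum_ite_eq, mem_univ, if_true] at this
      rw [this, zero_mul]
  have b : t * ∑ i, x i * ∑ j, M i j * x j + (1 - t) * ∑ i, x i ^ 2 = 0 := by
    rw [mul_sum, mul_sum, ← sum_add_distrib]
    exact sum_eq_zero fun i _ => by rw [← a i]; ring
  have d : 0 < ∑ i, x i ^ 2 := by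
    obtain ⟨i, hi⟩ := Function.ne_iff.1 x0
    exact sum_pos' (fun _ _ => sq_nonneg _) ⟨i, mem_univ _, by simpa using pow_pos (abs_pos.2 hi) 2⟩
  nlinarith [mul_nonneg ht.1 (hM x), mul_pos (sub_pos.2 t1) d]

/-- permutation matrix -/
def PMat (σ : Perm V) : V → V → ℝ := fun i j => if σ i = j then 1 else 0

lemma sum_dU_perm (A : V → V → ℝ) (U : Finset V) :
    ∑ σ : Perm V, (∏ i, A i (σ i)) * dU (PMat σ) U = dU A U * per A Uᶜ Uᶜ := by
  simp only [dU_perm, mul_sum, sum_mul]
  rw [sum_comm]
  refine sum_congr rfl fun τ _ => ?_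
  split_ifs with h
  · rw [per_eq_sum_perm, mul_sum, ← Equiv.sum_comp (Equiv.mulLeft τ)]
    refine sum_congr rfl fun ρ _ => ?_
    simp only [Equiv.coe_mulLeft, Perm.mul_apply, PMat, EmbeddingLike.apply_eq_iff_eq, mem_compl,
      not_not]
    split_ifs with g
    · rw [prod_eq_one (s := U) (f := fun i => if ρ i = i then (1 : ℝ) else 0) fun i hi =>
        if_pos (g i hi), ← prod_mul_prod_compl U, prod_congr rfl fun i hi => by rw [g i hi],
        prod_congr (s₁ := Uᶜ) rfl fun i hi => by
          rw [h (ρ i) fun hc => mem_compl.1 hi (ρ.injective (g _ hc) ▸ hc)]]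
      ring
    · push Not at g
      obtain ⟨i, g1, g2⟩ := g
      rw [prod_eq_zero g1 (if_neg g2)]
      ring
  · simp

lemma alt_zero [Nonempty V] (σ : Perm V) :
    ∑ U : Finset V, (-1) ^ U.card * dU (PMat σ) U = 0 := by
  rw [← det_expand, ← Matrix.exists_mulVec_eq_zero_iff]
  refine ⟨fun _ => 1, fun h => by simpa using congrFun h (Classical.arbitrary V), ?_⟩
  ext i
  simp [Matrix.mulVec, dotProduct, PMat, sum_add_distrib, Matrix.one_apply]

/-- Hamilton cycles as permutations -/
def Ham (σ : Perm V) : Prop := σ.IsCycle ∧ σ.support = univ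

open Classical in
lemma alt_ham [Nontrivial V] (σ : Perm V) (v : V) :
    ∑ U : Finset V, (if v ∈ U then 0 else (-1) ^ U.card * dU (PMat σ) U) =
      if Ham σ then 1 else 0 := by
  split_ifs with h
  · rw [sum_eq_single ∅]
    · simp only [notMem_empty, if_false, card_empty, pow_zero, one_mul, dU]
      exact Matrix.det_one
    · intro U _ hU
      split_ifs with hv
      · rfl
      obtain ⟨u, hu⟩ := nonempty_iff_ne_empty.2 hU
      have m : ∀ x, σ x ≠ x := fun x => Perm.mem_support.1 (h.2 ▸ mem_univ x)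
      obtain ⟨i, h1, h2⟩ : ∃ i ∈ U, σ i ∉ U := by
        by_contra hc
        push Not at hc
        obtain ⟨k, rfl⟩ := h.1.exists_pow_eq (m u) (m v)
        refine hv ?_
        clear hv
        induction k with
        | zero => exact hu
        | succ k ih => rw [pow_succ', Perm.mul_apply]; exact hc _ ih
      rw [dU, Matrix.det_zero_of_row_eq (m i).symm, mul_zero]
      ext j
      simp [h1, h2, PMat]
    · simp
  · have e : ∀ U : Finset V, (if v ∈ U then 0 else (-1) ^ U.card * dU (PMat σ) U) =
        (-1) ^ U.card * dU (fun i j => if i = v then 0 else PMat σ i j) U := fun U => by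
      split_ifs with hv
      · rw [dU, Matrix.det_eq_zero_of_row_eq_zero v fun j => by simp [hv], mul_zero]
      · unfold dU
        congr 2
        ext i j
        by_cases hi : i ∈ U
        · simp [hi, show i ≠ v from fun h => hv (h ▸ hi)]
        · simp [hi]
    simp only [e]
    rw [← det_expand, ← Matrix.exists_mulVec_eq_zero_iff]
    refine ⟨fun x => if σ.SameCycle v x then 0 else 1, fun hc => h ?_, ?_⟩
    · have s : ∀ x, σ.SameCycle v x := fun x => by simpa using congrFun hc x
      have m : ∀ x, σ x ≠ x := fun x hx => by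
        obtain ⟨y, hy⟩ := exists_ne x
        exact hy (((s x).symm.trans (s y)).eq_of_left hx).symm
      exact ⟨⟨v, m v, fun y _ => s y⟩, eq_univ_of_forall fun x => Perm.mem_support.2 (m x)⟩
    · ext i
      rw [Matrix.add_mulVec, Matrix.one_mulVec, Matrix.smul_mulVec]
      by_cases hi : i = v
      · simp [hi, Matrix.mulVec, dotProduct, Perm.SameCycle.refl]
      · simp only [Pi.add_apply, Pi.smul_apply, Matrix.mulVec, dotProduct, Matrix.of_apply,
          if_neg hi, PMat, ite_mul, one_mul, zero_mul, sum_ite_eq, mem_univ, if_true,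
          Perm.sameCycle_apply_right]
        split_ifs <;> simp

open Classical in
/-- weighted number of Hamilton cycles -/
def HW (A : V → V → ℝ) : ℝ := ∑ σ : Perm V, if Ham σ then ∏ i, A i (σ i) else 0

lemma ham_identity [Nontrivial V] (A : V → V → ℝ) : Fintype.card V * HW A =
    -∑ U : Finset V, U.card * ((-1) ^ U.card * (dU A U * per A Uᶜ Uᶜ)) := by
  classical
  have a : ∀ σ : Perm V, (Fintype.card V : ℝ) * (if Ham σ then 1 else 0) =
      -∑ U : Finset V, U.card * ((-1) ^ U.card * dU (PMat σ) U) := fun σ => by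
    have : ∀ v : V, (if Ham σ then (1 : ℝ) else 0) =
        -∑ U : Finset V, if v ∈ U then (-1) ^ U.card * dU (PMat σ) U else 0 := fun v => by
      rw [← alt_ham σ v, eq_neg_iff_add_eq_zero, ← sum_add_distrib]
      exact (sum_congr rfl fun U _ => by split_ifs <;> simp).trans (alt_zero σ)
    rw [← card_univ, ← nsmul_eq_mul, ← sum_const, sum_congr rfl fun v _ => this v,
      sum_neg_distrib, sum_comm]
    congr 1
    exact sum_congr rfl fun U _ => by simp
  simp only [← sum_dU_perm, mul_sum]
  rw [sum_comm, HW, mul_sum, ← sum_neg_distrib]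
  refine sum_congr rfl fun σ _ => ?_
  have := congrArg ((∏ i, A i (σ i)) * ·) (a σ)
  simp only [mul_neg, mul_sum] at this
  rw [sum_congr rfl fun U _ => (by ring : (U.card : ℝ) * ((-1) ^ U.card *
    ((∏ i, A i (σ i)) * dU (PMat σ) U)) = (∏ i, A i (σ i)) * (U.card * ((-1) ^ U.card *
    dU (PMat σ) U))), ← this]
  split_ifs <;> ring

end Pool.Agent.P.MP_012ca0_co.Ev
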