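import Pool.Agent.P.MP_012ca0_co.Ev.Int
import Pool.Agent.P.MP_012ca0_co.Ev.Ident

/-! The ratio between weighted Hamilton cycles and the permanent. -/

set_option autoImplicit false
set_option linter.unusedSectionVars false

open Finset

noncomputable section

namespace Pool.Agent.P.MP_012ca0_co.Ev

variable {V : Type} [Fintype V] [DecidableEq V] {S Y : V → V → ℝ} {l : V → ℝ} {δ : ℝ} {j : ℕ}

lemma Good.quad (h : Good Y) (x : V → ℝ) : ∑ i, x i * ∑ j, Y i j * x j = 0 := by
  have : ∑ i, x i * ∑ j, Y i j * x j = -∑ i, x i * ∑ j, Y i j * x j := by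
    simp only [mul_sum]
    nth_rewrite 1 [sum_comm]
    simp only [← sum_neg_distrib]
    exact sum_congr rfl fun i _ => sum_congr rfl fun j _ => by rw [h.skew i j]; ring
  linarith

lemma Good.dU_nonneg (h : Good Y) (U : Finset V) : 0 ≤ dU (fun u v => 1 + Y u v) U :=
  Ev.dU_nonneg _ (fun x => by
    simp only [add_mul, sum_add_distrib, mul_add, h.quad, one_mul, add_zero, ← sum_mul]
    exact mul_self_nonneg _) U

lemma det_factor (h : Good Y) (t : ℝ) : (1 + t • Matrix.of fun u v => 1 + Y u v).det =
    (1 + t * Fintype.card V) * (1 + t • Matrix.of Y).det := by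
  have e : (1 + t • Matrix.of fun u v => 1 + Y u v) = (1 + t • Matrix.of Y) *
      (1 + Matrix.replicateCol Unit (fun _ : V => t) *
        Matrix.replicateRow Unit fun _ : V => (1 : ℝ)) := by
    rw [Matrix.mul_add, Matrix.mul_one, Matrix.add_mul, Matrix.one_mul]
    ext u v
    simp only [Matrix.add_apply,
      Matrix.smul_apply, Matrix.of_apply, Matrix.mul_apply, Matrix.replicateCol_apply,
      Matrix.replicateRow_apply, smul_eq_mul, ← sum_mul, ← mul_sum, h.row]
    simp
    ring
  rw [e, Matrix.det_mul, Matrix.det_one_add_replicateCol_mul_replicateRow, mul_comm]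
  simp [dotProduct, mul_comm]

lemma hasDerivAt_det (M : V → V → ℝ) (t : ℝ) : HasDerivAt (fun t : ℝ => (1 + t • Matrix.of M).det)
    (∑ U : Finset V, U.card * t ^ (U.card - 1) * dU M U) t := by
  simp only [det_expand]
  exact HasDerivAt.fun_sum fun U _ => (hasDerivAt_pow _ t).mul_const _

lemma main_term (h : Good Y) (hN : (0 : ℝ) < Fintype.card V) :
    -∑ U : Finset V, U.card * ((-1 / (Fintype.card V : ℝ)) ^ U.card * dU (fun u v => 1 + Y u v) U) =
      (1 + (-1 / (Fintype.card V : ℝ)) • Matrix.of Y).det := by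
  set N : ℝ := (Fintype.card V : ℝ) with hNd
  set t := -1 / N with ht
  have d1 := hasDerivAt_det (fun u v => 1 + Y u v) t
  simp only [det_factor h, ← hNd] at d1
  have d2 := (((hasDerivAt_id t).mul_const N).const_add 1).mul (hasDerivAt_det Y t)
  have e := d1.unique d2
  have t0 : 1 + t * N = 0 := by rw [ht]; field_simp; ring
  simp only [id, t0, zero_mul, add_zero, one_mul] at e
  have : ∑ U : Finset V, U.card * (t ^ U.card * dU (fun u v => 1 + Y u v) U) =
      t * ∑ U : Finset V, U.card * t ^ (U.card - 1) * dU (fun u v => 1 + Y u v) U := by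
    rw [mul_sum]
    refine sum_congr rfl fun U _ => ?_
    rcases U.card with _ | k
    · simp
    · rw [Nat.add_sub_cancel]; ring
  rw [this, e]
  linear_combination (-(1 + t • Matrix.of Y).det) * t0

lemma Spec.sum_le (h : Good S) (hs : Spec S l) : ∑ i, l i ≤ 1 := by
  rw [hs.sum]
  refine div_le_one_of_le₀ ?_ (sq_nonneg _)
  calc _ ≤ ∑ _u : V, ∑ _v : V, (1 : ℝ) := sum_le_sum fun u _ => sum_le_sum fun v _ => h.sq_le u v
    _ = _ := by simp [sq]

lemma Spec.det_eq (h : Good S) (hs : Spec S l) (t : ℝ) :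
    (1 + t • XX S).det = Real.exp ((∑ i, Real.log (1 + t ^ 2 * l i)) / 2) := by
  have a : 0 ≤ (1 + t • XX S).det := by
    have := dU_nonneg (fun u v => (1 + t • XX S) u v) (fun x => by
      have : ∀ i, x i * ∑ j, (1 + t • XX S) i j * x j =
          x i ^ 2 + t / Fintype.card V * (x i * ∑ j, S i j * x j) := fun i => by
        simp only [Matrix.add_apply, Matrix.one_apply, Matrix.smul_apply, XX, Matrix.of_apply,
          add_mul, sum_add_distrib, ite_mul, one_mul, zero_mul, sum_ite_eq, mem_univ, if_true,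
          smul_eq_mul, mul_add, mul_sum, sq]
        congr 1
        exact sum_congr rfl fun j _ => by ring
      simp only [this, sum_add_distrib, ← mul_sum, h.quad, mul_zero, add_zero]
      exact sum_nonneg fun _ _ => sq_nonneg _) univ
    simp only [dU, mem_univ, if_true] at this
    exact this
  rw [← pow_left_inj₀ a (Real.exp_pos _).le two_ne_zero, hs.det1, ← Real.exp_nat_mul]
  rw [show ∀ x : ℝ, ((2 : ℕ) : ℝ) * (x / 2) = x from fun x => by push_cast; ring, Real.exp_sum]
  exact prod_congr rfl fun i _ => (Real.exp_log (by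
    have := mul_nonneg (sq_nonneg t) (hs.nonneg i); linarith)).symm

lemma Spec.det_le (h : Good S) (hs : Spec S l) (t : ℝ) :
    (1 + t • XX S).det ≤ Real.exp (t ^ 2) := by
  rw [hs.det_eq h, Real.exp_le_exp]
  have a : ∑ i, Real.log (1 + t ^ 2 * l i) ≤ ∑ i, t ^ 2 * l i := sum_le_sum fun i _ => by
    have := mul_nonneg (sq_nonneg t) (hs.nonneg i)
    linarith [Real.log_le_sub_one_of_pos (show 0 < 1 + t ^ 2 * l i by linarith)]
  rw [← mul_sum] at a
  nlinarith [hs.sum_le h, sq_nonneg t]

lemma pn_unif (h : Good Y) (hp : Pos Y δ)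
    (hP : ((Fintype.card V).factorial : ℝ) ≤ Real.exp 1 * Pm Y univ univ) (U : Finset V) :
    U.card * |pn Y Uᶜ Uᶜ - 1| ≤ Real.exp 1000 ^ (U.card + 1) / Fintype.card V := by
  have hU := card_add_card_compl U
  have hb := hp.big
  set k := U.card with hk
  set n := Fintype.card V with hn
  have hN : (0 : ℝ) < n := by exact_mod_cast (by omega : 0 < n)
  have k0 : (0 : ℝ) ≤ k := by positivity
  have ek : (k : ℝ) ≤ Real.exp k := by linarith [Real.add_one_le_exp (k : ℝ)]
  rw [← Real.exp_nat_mul, le_div_iff₀ hN]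
  push_cast
  by_cases c : 200 * (k + 1) ≤ n
  · have a := pn_close h hp k c Uᶜ Uᶜ rfl (by omega)
    rw [← hn] at a
    set x := (35 * (k : ℝ) ^ 2 + 1400 * k) / n with hx
    have c' : 200 * ((k : ℝ) + 1) ≤ n := by exact_mod_cast c
    have x1 : x ≤ k + 7 := by rw [hx, div_le_iff₀ hN]; nlinarith
    have x0 : 0 ≤ x := by positivity
    have x2 : Real.exp x - 1 ≤ x * Real.exp x := by
      have := mul_le_mul_of_nonneg_right (Real.add_one_le_exp (-x)) (Real.exp_pos x).le
      rw [← Real.exp_add, neg_add_cancel, Real.exp_zero] at this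
      linarith
    have x3 : x * n ≤ Real.exp (2 * k + 11) := by
      rw [hx, div_mul_cancel₀ _ hN.ne', Real.exp_add, two_mul, Real.exp_add]
      have : (2048 : ℝ) ≤ Real.exp 11 := by
        have := pow_le_pow_left₀ (by norm_num) (Real.add_one_le_exp 1) 11
        rw [← Real.exp_nat_mul] at this
        norm_num at this ⊢
        exact this
      have e1 := Real.one_le_exp k0
      have : 35 * (k : ℝ) ^ 2 + 1400 * k ≤ Real.exp k * Real.exp k * 2048 := by nlinarith
      exact this.trans (by gcongr)
    calc _ ≤ Real.exp k * (x * Real.exp (k + 7)) * n := by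
          gcongr
          exact a.trans (x2.trans (by gcongr))
      _ = Real.exp k * Real.exp (k + 7) * (x * n) := by ring
      _ ≤ Real.exp k * Real.exp (k + 7) * Real.exp (2 * k + 11) := by gcongr
      _ ≤ _ := by rw [← Real.exp_add, ← Real.exp_add, Real.exp_le_exp]; linarith
  · have c' : (n : ℝ) ≤ 200 * ((k : ℝ) + 1) := by exact_mod_cast (by omega : n ≤ 200 * (k + 1))
    have P0 := hp.P_pos h
    have a := (per_bounds (fun u v => 1 + Y u v) le_rfl h.nonneg h.le_two _ Uᶜ Uᶜ rfl rfl).2
    have b : (n : ℝ) ^ n ≤ Real.exp n * n.factorial := by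
      have := Real.pow_div_factorial_le_exp (n : ℝ) hN.le n
      rwa [div_le_iff₀ (by positivity)] at this
    have d : pn Y Uᶜ Uᶜ ≤ Real.exp (2 * n + 1) := by
      rw [pn, div_le_iff₀ P0, compl_compl, ← hk, ← hn]
      have m1 : ((Uᶜ.card).factorial : ℝ) ≤ (n : ℝ) ^ Uᶜ.card := by
        exact_mod_cast (Nat.factorial_le_pow _).trans (Nat.pow_le_pow_left (by omega) _)
      have m2 : (2 : ℝ) ^ Uᶜ.card ≤ Real.exp n := by
        refine (pow_le_pow_left₀ (by norm_num) (show (2 : ℝ) ≤ Real.exp 1 by
          linarith [Real.add_one_le_exp 1]) _).trans ?_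
        rw [← Real.exp_nat_mul, mul_one, Real.exp_le_exp]
        exact_mod_cast (by omega : Uᶜ.card ≤ n)
      calc _ ≤ (n : ℝ) ^ k * (Real.exp n * (n : ℝ) ^ Uᶜ.card) := by
            gcongr
            exact a.trans (by gcongr)
        _ = Real.exp n * (n : ℝ) ^ n := by rw [mul_left_comm, ← pow_add, hU]
        _ ≤ Real.exp n * (Real.exp n * (Real.exp 1 * Pm Y univ univ)) := by
            gcongr
            exact b.trans (by gcongr)
        _ = _ := by rw [Real.exp_add, two_mul, Real.exp_add]; ring
    have f : |pn Y Uᶜ Uᶜ - 1| ≤ Real.exp (2 * n + 1) := by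
      have := pn_nonneg h Uᶜ Uᶜ
      have := Real.one_le_exp (show (0 : ℝ) ≤ 2 * n + 1 by positivity)
      rw [abs_le]
      constructor <;> linarith
    have en : (n : ℝ) ≤ Real.exp n := by linarith [Real.add_one_le_exp (n : ℝ)]
    calc _ ≤ Real.exp k * Real.exp (2 * n + 1) * Real.exp n := by gcongr
      _ ≤ _ := by rw [← Real.exp_add, ← Real.exp_add, Real.exp_le_exp]; linarith

/-- an absolute constant -/
def KK : ℝ := Real.exp 1000 * (1 + Real.exp 1000) * Real.exp (Real.exp 1000 ^ 2)

lemma KK_pos : 0 < KK := by unfold KK; positivity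

lemma ham_ratio (h : Good S) (hs : Spec S l) {z : ℝ} (hz : |z| ≤ 1)
    (hp : Pos (fun u v => z * S u v) δ) (hP : ((Fintype.card V).factorial : ℝ) ≤
      Real.exp 1 * Pm (fun u v => z * S u v) univ univ) :
    |Fintype.card V * HW (fun u v => 1 + z * S u v) / Pm (fun u v => z * S u v) univ univ -
      Real.exp ((∑ i, Real.log (1 + z ^ 2 * l i)) / 2)| ≤ KK / Fintype.card V := by
  have hb := hp.big
  have : Nontrivial V := Fintype.one_lt_card_iff_nontrivial.1 (by omega)
  have hN : (0 : ℝ) < Fintype.card V := by exact_mod_cast (by omega : 0 < Fintype.card V)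
  have hY := h.smul hz
  have P0 := hp.P_pos hY
  have eX : ∀ t : ℝ, (t / Fintype.card V) • (Matrix.of fun u v => z * S u v) = (t * z) • XX S :=
    fun t => by ext u v; simp only [XX, Matrix.smul_apply, Matrix.of_apply, smul_eq_mul]; ring
  have m := main_term hY hN
  rw [eX, hs.det_eq h, show (-1 * z) ^ 2 = z ^ 2 by ring] at m
  have u := pn_unif hY hp hP
  have f := det_factor hY (Real.exp 1000 / Fintype.card V)
  rw [det_expand, eX, div_mul_cancel₀ _ hN.ne'] at f
  rw [← m, ham_identity, neg_div, neg_sub_neg, sum_div, ← sum_sub_distrib]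
  set N : ℝ := (Fintype.card V : ℝ) with hNd
  set K := Real.exp 1000 with hK
  have K0 : 0 < K := Real.exp_pos _
  calc _ ≤ ∑ U : Finset V, K / N * ((K / N) ^ U.card * dU (fun u v => 1 + z * S u v) U) := by
        refine (abs_sum_le_sum_abs _ _).trans (sum_le_sum fun U _ => ?_)
        have d0 := hY.dU_nonneg U
        have e : (U.card : ℝ) * ((-1 / N) ^ U.card * dU (fun u v => 1 + z * S u v) U) -
            U.card * ((-1) ^ U.card * (dU (fun u v => 1 + z * S u v) U *
              per (fun u v => 1 + z * S u v) Uᶜ Uᶜ)) / Pm (fun u v => z * S u v) univ univ =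
            -((-1 / N) ^ U.card * dU (fun u v => 1 + z * S u v) U) *
              (U.card * (pn (fun u v => z * S u v) Uᶜ Uᶜ - 1)) := by
          rw [pn, compl_compl, ← hNd, div_pow]
          unfold Pm at P0 ⊢
          field_simp
          ring
        rw [e, abs_mul, abs_neg, abs_mul, abs_mul, abs_of_nonneg d0, Nat.abs_cast, abs_pow, abs_div,
          abs_neg, abs_one, abs_of_pos hN]
        refine (mul_le_mul_of_nonneg_left (u U) (by positivity)).trans (le_of_eq ?_)
        rw [div_pow, div_pow]
        field_simp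
        ring
    _ = K / N * ((1 + K) * (1 + (K * z) • XX S).det) := by rw [← mul_sum, f]
    _ ≤ K / N * ((1 + K) * Real.exp (K ^ 2)) := by
        gcongr
        refine (hs.det_le h _).trans (Real.exp_le_exp.2 ?_)
        rw [mul_pow]
        exact mul_le_of_le_one_right (sq_nonneg _) ((sq_le_one_iff_abs_le_one z).2 hz)
    _ = _ := by rw [KK, ← hK]; ring

end Pool.Agent.P.MP_012ca0_co.Ev
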