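import Pool.Agent.P.MP_012ca0_co.Ev.Ans

/-! Spectral computations. -/

set_option autoImplicit false
set_option linter.unusedSectionVars false

open Finset Matrix

noncomputable section

namespace Pool.Agent.P.MP_012ca0_co.Ev

variable {V : Type} [Fintype V] [DecidableEq V] {S : V → V → ℝ}

/-- the normalised matrix -/
def XX (S : V → V → ℝ) : Matrix V V ℝ := Matrix.of fun u v => S u v / Fintype.card V

lemma exists_spec (h : Good S) (hN : (0 : ℝ) < Fintype.card V) :
    ∃ (U : Matrix V V ℝ) (l : V → ℝ), Uᵀ * U = 1 ∧ U * Uᵀ = 1 ∧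
      XX S * (XX S)ᵀ = U * diagonal l * Uᵀ ∧ ∀ i, 0 ≤ l i ∧ l i ≤ 1 / 2 := by
  have hW : (XX S * (XX S)ᵀ).IsHermitian := by
    rw [← conjTranspose_eq_transpose_of_trivial]; exact isHermitian_mul_conjTranspose_self _
  obtain ⟨U, l, h1, h3⟩ : ∃ (U : Matrix V V ℝ) (l : V → ℝ), Uᵀ * U = 1 ∧
      XX S * (XX S)ᵀ = U * diagonal l * Uᵀ := by
    refine ⟨hW.eigenvectorUnitary.1, hW.eigenvalues, ?_, ?_⟩
    · rw [← conjTranspose_eq_transpose_of_trivial]; exact hW.eigenvectorUnitary.2.1
    · have := hW.spectral_theorem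
      rw [Unitary.conjStarAlgAut_apply] at this
      rw [← conjTranspose_eq_transpose_of_trivial (A := hW.eigenvectorUnitary.1),
        ← star_eq_conjTranspose]
      simpa using this
  have h2 : U * Uᵀ = 1 := mul_eq_one_comm.1 h1
  refine ⟨U, l, h1, h2, h3, fun i => ?_⟩
  have h4 : diagonal l = ((XX S)ᵀ * U)ᵀ * ((XX S)ᵀ * U) := by
    rw [transpose_mul, transpose_transpose, Matrix.mul_assoc, ← Matrix.mul_assoc (XX S), h3]
    simp only [← Matrix.mul_assoc, h1, Matrix.one_mul]
    rw [Matrix.mul_assoc, h1, Matrix.mul_one]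
  have h5 : l i = (∑ v, (∑ x, S v x * U x i) ^ 2) / (Fintype.card V : ℝ) ^ 2 := by
    have := congrFun (congrFun h4 i) i
    rw [diagonal_apply_eq, mul_apply] at this
    rw [this, sum_div]
    refine sum_congr rfl fun v _ => ?_
    rw [transpose_apply, ← sq, ← div_pow, ← neg_sq, mul_apply, sum_div, ← sum_neg_distrib]
    congr 1
    refine sum_congr rfl fun x _ => ?_
    simp only [XX, transpose_apply, of_apply]
    rw [h.skew v x]; ring
  have h6 : ∑ x, U x i ^ 2 = 1 := by
    have := congrFun (congrFun h1 i) i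
    rw [mul_apply, one_apply_eq] at this
    simpa [sq] using this
  have h7 := h.op fun x => U x i
  rw [h6] at h7
  rw [h5]
  refine ⟨div_nonneg (sum_nonneg fun _ _ => sq_nonneg _) (sq_nonneg _), ?_⟩
  rw [div_le_iff₀ (by positivity)]
  linarith

section
variable {U : Matrix V V ℝ} (h1 : Uᵀ * U = 1) (h2 : U * Uᵀ = 1)
include h1

lemma conj_mul (f g : V → ℝ) :
    U * diagonal f * Uᵀ * (U * diagonal g * Uᵀ) = U * diagonal (fun i => f i * g i) * Uᵀ := by
  rw [← diagonal_mul_diagonal]
  simp only [Matrix.mul_assoc]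
  rw [← Matrix.mul_assoc Uᵀ U, h1, Matrix.one_mul]

lemma conj_trace (f : V → ℝ) : (U * diagonal f * Uᵀ).trace = ∑ i, f i := by
  rw [trace_mul_cycle, h1, Matrix.one_mul, trace_diagonal]

lemma conj_det (f : V → ℝ) : (U * diagonal f * Uᵀ).det = ∏ i, f i := by
  rw [det_mul_comm, ← Matrix.mul_assoc, h1, Matrix.one_mul, det_diagonal]

include h2

lemma conj_affine (f : V → ℝ) (c : ℝ) :
    1 + c • (U * diagonal f * Uᵀ) = U * diagonal (fun i => 1 + c * f i) * Uᵀ := by
  have : diagonal (fun i => 1 + c * f i) = 1 + c • diagonal f := by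
    ext i j; by_cases e : i = j <;> simp [e, diagonal]
  rw [this, Matrix.mul_add, Matrix.add_mul, Matrix.mul_one, h2]
  simp

end

lemma XX_transpose (h : Good S) : (XX S)ᵀ = -XX S := by
  ext u v
  simp only [XX, transpose_apply, of_apply, Matrix.neg_apply]
  rw [h.skew u v]; ring

/-- everything we need about the spectrum -/
structure Spec (S : V → V → ℝ) (l : V → ℝ) : Prop where
  nonneg : ∀ i, 0 ≤ l i
  le : ∀ i, l i ≤ 1 / 2
  sum : ∑ i, l i = (∑ u, ∑ v, S u v ^ 2) / (Fintype.card V : ℝ) ^ 2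
  sumsq : ∑ i, l i ^ 2 = (∑ u, ∑ v, (∑ w, S u w * S v w) ^ 2) / (Fintype.card V : ℝ) ^ 4
  twice : ∀ i, 2 * l i ^ 2 ≤ ∑ k, l k ^ 2
  det1 : ∀ t : ℝ, (1 + t • XX S).det ^ 2 = ∏ i, (1 + t ^ 2 * l i)
  det2 : (1 + XX S * XX S).det = ∏ i, (1 - l i)
  res : ∀ z : ℝ, |z| ≤ 1 → ∃ α, Res (fun u v => z * S u v) α ∧
    ∑ u, ∑ v, S u v * α u v = (Fintype.card V : ℝ) ^ 2 * ∑ i, z * l i / (1 - z ^ 2 * l i)

lemma exists_Spec (h : Good S) (hN : (0 : ℝ) < Fintype.card V) : ∃ l, Spec S l := by
  obtain ⟨U, l, h1, h2, h3, h4⟩ := exists_spec h hN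
  set N : ℝ := (Fintype.card V : ℝ) with hNd
  refine ⟨l, fun i => (h4 i).1, fun i => (h4 i).2, ?_, ?_, fun i => ?_, fun t => ?_, ?_,
    fun z hz => ?_⟩
  · rw [← conj_trace h1, ← h3]
    simp [trace, mul_apply, XX, sum_div, sq, div_mul_div_comm]
  · simp only [sq (l _)]
    rw [← conj_trace h1, ← conj_mul h1, ← h3]
    simp only [trace, diag_apply, mul_apply (M := XX S * (XX S)ᵀ), sum_div]
    refine sum_congr rfl fun u _ => sum_congr rfl fun v _ => ?_
    simp only [mul_apply, XX, transpose_apply, of_apply, div_mul_div_comm, ← sum_div, ← hNd]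
    rw [sum_congr rfl fun w _ => mul_comm (S v w) (S u w)]
    ring
  · set M := Uᵀ * XX S * U with hM
    have t1 : Mᵀ = -M := by
      rw [hM, transpose_mul, transpose_mul, transpose_transpose, XX_transpose h]
      simp [Matrix.mul_assoc]
    have t2 : M * Mᵀ = diagonal l := by
      rw [hM, transpose_mul, transpose_mul, transpose_transpose]
      simp only [Matrix.mul_assoc]
      rw [← Matrix.mul_assoc U, h2, Matrix.one_mul, ← Matrix.mul_assoc (XX S), h3]
      simp only [← Matrix.mul_assoc, h1, Matrix.one_mul]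
      rw [Matrix.mul_assoc, h1, Matrix.mul_one]
    have t3 : M * diagonal l = diagonal l * M := by
      rw [← t2, t1]; simp [Matrix.mul_assoc]
    by_cases e : ∀ k, M i k = 0
    · have := congrFun (congrFun t2 i) i
      simp only [mul_apply, e, zero_mul, sum_const_zero, diagonal_apply_eq] at this
      rw [← this]
      simpa using sum_nonneg fun k (_ : k ∈ univ) => sq_nonneg (l k)
    · push Not at e
      obtain ⟨k, e⟩ := e
      have a := congrFun (congrFun t3 i) k
      rw [mul_diagonal, diagonal_mul, mul_comm] at a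
      have b : i ≠ k := fun c => e (by
        have := congrFun (congrFun t1 i) k
        rw [transpose_apply, Matrix.neg_apply, ← c] at this
        rw [← c]; linarith)
      have := sum_le_sum_of_subset_of_nonneg (f := fun k => l k ^ 2) (subset_univ {i, k})
        fun _ _ _ => sq_nonneg _
      rw [sum_pair b, mul_right_cancel₀ e a] at this
      linarith
  · rw [← conj_det h1, ← conj_affine h1 h2, ← h3, sq]
    nth_rewrite 2 [← det_transpose]
    rw [← det_mul, transpose_add, transpose_smul, transpose_one, XX_transpose h]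
    congr 1
    simp only [Matrix.add_mul, Matrix.mul_add, Matrix.one_mul, Matrix.mul_one, smul_neg,
      Matrix.mul_neg, smul_mul_smul_comm, sq]
    abel
  · have := conj_affine h1 h2 l (-1)
    rw [← h3, XX_transpose h] at this
    simp only [Matrix.mul_neg, smul_neg, neg_smul, one_smul, neg_neg, neg_mul, one_mul] at this
    rw [this, conj_det h1]
    rfl
  · have hz2 : z ^ 2 ≤ 1 := (sq_le_one_iff_abs_le_one z).2 hz
    have hp : ∀ i, 1 - z ^ 2 * l i ≠ 0 := fun i => by nlinarith [h4 i, sq_nonneg z]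
    set M := U * diagonal (fun i => (1 - z ^ 2 * l i)⁻¹) * Uᵀ with hM
    set Y : Matrix V V ℝ := Matrix.of fun u v => z * S u v with hY
    have hYX : Y = (z * N) • XX S := by
      ext u v; simp only [hY, XX, of_apply, Matrix.smul_apply, smul_eq_mul, ← hNd]; field_simp
    have W : Y * Yᵀ = (z * N) ^ 2 • (U * diagonal l * Uᵀ) := by
      rw [hYX, transpose_smul, smul_mul_smul_comm, h3, sq]
    have Mt : Mᵀ = M := by simp [hM, transpose_mul, Matrix.mul_assoc]
    have d1 : diagonal (fun i => (1 - z ^ 2 * l i)⁻¹) =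
        1 + z ^ 2 • diagonal fun i => l i * (1 - z ^ 2 * l i)⁻¹ := by
      ext i j
      by_cases e : i = j
      · have := hp j
        simp [e]
        field_simp
        ring
      · simp [e]
    have m0 : N ^ 2 • M = N ^ 2 • (1 : Matrix V V ℝ) +
        (z * N) ^ 2 • (U * diagonal (fun i => l i * (1 - z ^ 2 * l i)⁻¹) * Uᵀ) := by
      rw [hM, d1, Matrix.mul_add, Matrix.add_mul, Matrix.mul_one, h2, smul_add, Matrix.mul_smul,
        Matrix.smul_mul, smul_smul]
      congr 2; ring
    have m1 : N ^ 2 • M = N ^ 2 • (1 : Matrix V V ℝ) + Y * Yᵀ * M := by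
      rw [W, Matrix.smul_mul]
      nth_rewrite 2 [hM]
      rw [conj_mul h1, m0]
    have m2 : N ^ 2 • M = N ^ 2 • (1 : Matrix V V ℝ) + M * (Y * Yᵀ) := by
      have := congrArg transpose m1
      simpa [transpose_mul, Mt] using this
    have m3 : Y * Yᵀ * M = M * (Y * Yᵀ) := add_left_cancel (m1.symm.trans m2)
    refine ⟨fun u v => (M * Y) u v,
      ⟨fun u j => ?_, fun i v => ?_, fun v j => ?_, fun u i => ?_, fun g => ?_⟩, ?_⟩
    · have e : N ^ 2 • (M * Y) = N ^ 2 • Y + Y * (Yᵀ * (M * Y)) := by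
        rw [← Matrix.smul_mul, m1, Matrix.add_mul, Matrix.smul_mul, Matrix.one_mul]
        simp only [Matrix.mul_assoc]
      have := congrFun (congrFun e u) j
      simp only [Matrix.add_apply, Matrix.smul_apply, smul_eq_mul] at this
      rw [← hNd, this, mul_apply]
      simp only [mul_apply (M := Yᵀ), transpose_apply]
      rfl
    · have e : N ^ 2 • (M * Y) = N ^ 2 • Y + M * Y * Yᵀ * Y := by
        rw [← Matrix.smul_mul, m2, Matrix.add_mul, Matrix.smul_mul, Matrix.one_mul]
        simp only [Matrix.mul_assoc]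
      have := congrFun (congrFun e i) v
      simp only [Matrix.add_apply, Matrix.smul_apply, smul_eq_mul] at this
      rw [← hNd, this, mul_apply]
      simp only [mul_apply (N := Yᵀ), transpose_apply]
      congr 1
      refine sum_congr rfl fun u _ => ?_
      rw [mul_comm]
      congr 1
      exact sum_congr rfl fun w _ => mul_comm _ _
    · have : (Yᵀ * (M * Y))ᵀ = Yᵀ * (M * Y) := by
        simp [transpose_mul, Mt, Matrix.mul_assoc]
      exact (congrFun (congrFun this v) j).symm
    · have : (Y * (M * Y)ᵀ)ᵀ = Y * (M * Y)ᵀ := by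
        rw [transpose_mul, transpose_transpose, transpose_mul, Mt, ← Matrix.mul_assoc, m3,
          Matrix.mul_assoc]
      exact (congrFun (congrFun this u) i).symm
    · refine ⟨M *ᵥ g, fun u => ?_⟩
      have := congrFun (congrArg (· *ᵥ g) m1) u
      simp only [add_mulVec, smul_mulVec, one_mulVec, ← mulVec_mulVec, Pi.add_apply,
        Pi.smul_apply, smul_eq_mul] at this
      rw [← hNd, this]
      rfl
    · have e1 : ∑ u, ∑ v, S u v * (M * Y) u v = (M * (Y * (N • XX S)ᵀ)).trace := by
        rw [← Matrix.mul_assoc]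
        simp only [trace, diag_apply, mul_apply (M := M * Y), transpose_apply, XX, Matrix.smul_apply,
          of_apply, smul_eq_mul, ← hNd]
        refine sum_congr rfl fun u _ => sum_congr rfl fun v _ => ?_
        field_simp
      rw [e1, hYX, transpose_smul, smul_mul_smul_comm, h3, Matrix.mul_smul, hM, conj_mul h1,
        trace_smul, conj_trace h1, smul_eq_mul, mul_sum, mul_sum]
      exact sum_congr rfl fun i _ => by rw [← hNd]; ring

end Pool.Agent.P.MP_012ca0_co.Ev
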