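import Pool.Agent.P.MP_012ca0_co.Ev.Sec
import Pool.Agent.P.MP_012ca0_co.Ev.Spec

/-! Asymptotics of the permanent by integrating the logarithmic derivative. -/

set_option autoImplicit false
set_option linter.unusedSectionVars false

open Finset

noncomputable section

namespace Pool.Agent.P.MP_012ca0_co.Ev

variable {V : Type} [Fintype V] [DecidableEq V] {S : V → V → ℝ} {l : V → ℝ} {δ : ℝ} {j : ℕ}

/-- numerical side conditions on the size `n`, the gap `δ` and the depth `j` -/
structure Num (n : ℕ) (δ : ℝ) (j : ℕ) : Prop where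
  pos : 0 < δ
  big : 4000 ≤ n
  small : 0.91 ^ (n / 400) * (2 / δ) ≤ 1 / n
  h1 : (0.9 : ℝ) ^ j ≤ 1 / (n : ℝ) ^ 2
  h2 : 400000 * (4 * j + 1) ^ 3 ≤ n

lemma Num.toPos (H : Num (Fintype.card V) δ j) (h : Good S) {z : ℝ} (z0 : 0 ≤ z)
    (z1 : z ≤ 1 - δ) : Pos (fun u v => z * S u v) δ :=
  ⟨H.pos, fun u v => by nlinarith [(abs_le.1 (h.bd u v)).1], H.big, H.small⟩

lemma Spec.den_pos (hs : Spec S l) {z : ℝ} (hz : |z| ≤ 1) (i : V) : 1 / 2 ≤ 1 - z ^ 2 * l i := by
  have hz2 : z ^ 2 ≤ 1 := (sq_le_one_iff_abs_le_one z).2 hz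
  nlinarith [hs.nonneg i, hs.le i, sq_nonneg z]

lemma deriv_bound (h : Good S) (hs : Spec S l) (H : Num (Fintype.card V) δ j) {z : ℝ}
    (z0 : 0 ≤ z) (z1 : z ≤ 1 - δ) : ∃ d, HasDerivAt (fun z => Real.log
      (Pm (fun u v => z * S u v) univ univ) + (∑ i, Real.log (1 - z ^ 2 * l i)) / 2) d z ∧
      |d| ≤ 400000 * (4 * j + 1) ^ 3 / Fintype.card V := by
  have hz : |z| ≤ 1 := by rw [abs_of_nonneg z0]; linarith [H.pos]
  have hp := H.toPos h z0 z1
  have hY := h.smul hz
  have P0 := hp.P_pos hY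
  have hN : (0 : ℝ) < Fintype.card V := by
    exact_mod_cast (by have := H.big; omega : 0 < Fintype.card V)
  obtain ⟨α, hα, e⟩ := hs.res z hz
  obtain ⟨φ, ψ, a, b, hS⟩ := exists_sol hY hα hN
  have so := second_order hY hp hS H.h1 (by have := H.h2; omega)
  have d1 := (hasDerivAt_per S z).log P0.ne'
  have d2 : HasDerivAt (fun z => ∑ i, Real.log (1 - z ^ 2 * l i))
      (∑ i, -(2 * z * l i) / (1 - z ^ 2 * l i)) z := HasDerivAt.fun_sum fun i _ => by
    refine HasDerivAt.log ?_ (by linarith [hs.den_pos hz i])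
    simpa using ((hasDerivAt_pow 2 z).mul_const (l i)).const_sub 1
  refine ⟨_, d1.add (d2.div_const 2), ?_⟩
  set N : ℝ := (Fintype.card V : ℝ) with hNd
  set C : ℝ := 400000 * (4 * j + 1) ^ 3 with hC
  have e1 : (∑ u, ∑ v, S u v * per (fun u v => 1 + z * S u v) (univ.erase u) (univ.erase v)) /
      per (fun u v => 1 + z * S u v) univ univ = (∑ u, ∑ v, S u v *
        pn (fun u v => z * S u v) (univ.erase u) (univ.erase v)) / N := by
    simp only [sum_div]
    refine sum_congr rfl fun u _ => sum_congr rfl fun v _ => ?_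
    rw [pn, card_compl_erase (mem_univ v), compl_univ, card_empty, ← hNd]
    unfold Pm at P0 ⊢
    field_simp
    ring
  have e2 : ∑ u, ∑ v, S u v * (1 + (α u v + a u + b v) / N) =
      N * ∑ i, z * l i / (1 - z ^ 2 * l i) := by
    have : ∀ u v, S u v * (1 + (α u v + a u + b v) / N) =
        S u v * α u v / N + S u v * (1 + a u / N) + S u v * (b v / N) := fun u v => by ring
    simp only [this, sum_add_distrib, ← sum_div, e]
    rw [h.kill_col]
    simp only [← sum_mul, h.row]
    field_simp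
    simp
  have e3 : (∑ i, -(2 * z * l i) / (1 - z ^ 2 * l i)) / 2 = -∑ i, z * l i / (1 - z ^ 2 * l i) := by
    rw [sum_div, ← sum_neg_distrib]
    exact sum_congr rfl fun i _ => by ring
  rw [e1, e3]
  have e4 : (∑ u, ∑ v, S u v * pn (fun u v => z * S u v) (univ.erase u) (univ.erase v)) / N +
      -∑ i, z * l i / (1 - z ^ 2 * l i) = (∑ u, ∑ v, S u v * (pn (fun u v => z * S u v)
        (univ.erase u) (univ.erase v) - (1 + (α u v + a u + b v) / N))) / N := by
    simp only [mul_sub, sum_sub_distrib, e2]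
    field_simp
    ring
  rw [e4, abs_div, abs_of_pos hN]
  refine div_le_div_of_nonneg_right ?_ hN.le
  calc _ ≤ ∑ _u : V, ∑ _v : V, C / N ^ 2 := by
        refine (abs_sum_le_sum_abs _ _).trans (sum_le_sum fun u _ =>
          (abs_sum_le_sum_abs _ _).trans (sum_le_sum fun v _ => ?_))
        rw [abs_mul]
        exact (mul_le_of_le_one_left (abs_nonneg _) (h.bd u v)).trans (so u v)
    _ = C := by
        simp only [sum_const, card_univ, nsmul_eq_mul, ← hNd]
        field_simp

lemma per_asym (h : Good S) (hs : Spec S l) (H : Num (Fintype.card V) δ j) {z : ℝ}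
    (z0 : 0 ≤ z) (z1 : z ≤ 1 - δ) :
    |Real.log (Pm (fun u v => z * S u v) univ univ) + (∑ i, Real.log (1 - z ^ 2 * l i)) / 2 -
      Real.log (Fintype.card V).factorial| ≤ 400000 * (4 * j + 1) ^ 3 / Fintype.card V := by
  choose! d d1 d2 using fun z (hz : z ∈ Set.Icc 0 (1 - δ)) => deriv_bound h hs H hz.1 hz.2
  have := norm_image_sub_le_of_norm_deriv_le_segment' (fun x hx => (d1 x hx).hasDerivWithinAt)
    (fun x hx => d2 x (Set.Ico_subset_Icc_self hx)) z ⟨z0, z1⟩
  have e : Pm (fun u v => 0 * S u v) univ univ = (Fintype.card V).factorial := by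
    have := per_bounds (fun u v => 1 + 0 * S u v) zero_le_one (b := 1) (by simp) (by simp) _
      univ univ rfl rfl
    simp only [one_pow, one_mul, card_univ] at this
    exact le_antisymm this.2 this.1
  simp only [e, Real.norm_eq_abs] at this
  simp only [ne_eq, OfNat.ofNat_ne_zero, not_false_eq_true, zero_pow, zero_mul, sub_zero,
    Real.log_one, sum_const_zero, zero_div, add_zero] at this
  refine this.trans (mul_le_of_le_one_right (by positivity) (by linarith [H.pos]))

end Pool.Agent.P.MP_012ca0_co.Ev
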