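import Pool.Agent.P.MP_012ca0_co.Ev.Ham

/-! Passing to the boundary and to the limit. -/

set_option autoImplicit false
set_option linter.unusedSectionVars false

open Finset Filter

noncomputable section

namespace Pool.Agent.P.MP_012ca0_co.Ev

variable {V : Type} [Fintype V] [DecidableEq V] {S Y : V → V → ℝ} {l : V → ℝ} {δ : ℝ} {j : ℕ}

/-- the logarithm of the main term -/
def LL (l : V → ℝ) (z : ℝ) : ℝ :=
  (∑ i, Real.log (1 + z ^ 2 * l i)) / 2 - (∑ i, Real.log (1 - z ^ 2 * l i)) / 2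

lemma log_lip {a b : ℝ} (ha : 1 / 2 ≤ a) (hb : 1 / 2 ≤ b) :
    |Real.log a - Real.log b| ≤ 2 * |a - b| := by
  have key : ∀ a b : ℝ, 1 / 2 ≤ a → 1 / 2 ≤ b → Real.log a - Real.log b ≤ 2 * |a - b| := by
    intro a b ha hb
    rw [← Real.log_div (by linarith) (by linarith)]
    refine (Real.log_le_sub_one_of_pos (div_pos (by linarith) (by linarith))).trans ?_
    rw [div_sub_one (by linarith), div_le_iff₀ (by linarith)]
    nlinarith [le_abs_self (a - b), abs_nonneg (a - b)]
  rw [abs_le]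
  exact ⟨by linarith [key b a hb ha, abs_sub_comm a b], key a b ha hb⟩

lemma Spec.sum_lip (h : Good S) (hs : Spec S l) {s t : ℝ} (h1 : |s| ≤ 1) (h2 : |t| ≤ 1) :
    |∑ i, Real.log (1 + s * l i) - ∑ i, Real.log (1 + t * l i)| ≤ 2 * |s - t| := by
  rw [← sum_sub_distrib]
  calc _ ≤ ∑ i, 2 * |s - t| * l i := by
        refine (abs_sum_le_sum_abs _ _).trans (sum_le_sum fun i _ => ?_)
        have a := hs.nonneg i
        have b := hs.le i
        refine (log_lip (by nlinarith [(abs_le.1 h1).1]) (by nlinarith [(abs_le.1 h2).1])).trans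
          (le_of_eq ?_)
        rw [show 1 + s * l i - (1 + t * l i) = (s - t) * l i by ring, abs_mul, abs_of_nonneg a]
        ring
    _ ≤ _ := by
        rw [← mul_sum]
        exact mul_le_of_le_one_right (by positivity) (hs.sum_le h)

lemma Spec.sum_abs (h : Good S) (hs : Spec S l) {s : ℝ} (h1 : |s| ≤ 1) :
    |(∑ i, Real.log (1 + s * l i)) / 2| ≤ 1 := by
  have := hs.sum_lip h h1 (t := 0) (by simp)
  simp only [zero_mul, add_zero, Real.log_one, sum_const_zero, sub_zero] at this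
  rw [abs_div, abs_two]
  linarith

lemma hw_z (h : Good S) (hs : Spec S l) (H : Num (Fintype.card V) δ j) {z : ℝ}
    (z0 : 0 ≤ z) (z1 : z ≤ 1 - δ) :
    |Fintype.card V * HW (fun u v => 1 + z * S u v) / (Fintype.card V).factorial -
      Real.exp (LL l z)| ≤ Real.exp 2 * (2 * (400000 * (4 * j + 1) ^ 3 / Fintype.card V) +
        KK / Fintype.card V) := by
  have hz : |z| ≤ 1 := by rw [abs_of_nonneg z0]; linarith [H.pos]
  have hz2 : |z ^ 2| ≤ 1 := by rw [abs_pow]; exact pow_le_one₀ (abs_nonneg _) hz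
  have hp := H.toPos h z0 z1
  have P0 := hp.P_pos (h.smul hz)
  have hN : (0 : ℝ) < Fintype.card V := by
    exact_mod_cast (by have := H.big; omega : 0 < Fintype.card V)
  have a := per_asym h hs H z0 z1
  have b1 := hs.sum_abs h hz2
  have b2 := hs.sum_abs h (s := -z ^ 2) (by rwa [abs_neg])
  simp only [neg_mul, ← sub_eq_add_neg] at b2
  have b3 := Real.exp_le_exp.2 (abs_le.1 b1).2
  set θ : ℝ := 400000 * (4 * j + 1) ^ 3 / Fintype.card V with hθ
  have θ1 : θ ≤ 1 := by rw [hθ, div_le_one hN]; exact_mod_cast H.h2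
  set P := Pm (fun u v => z * S u v) univ univ with hP
  set B := (∑ i, Real.log (1 - z ^ 2 * l i)) / 2 with hB
  set F : ℝ := ((Fintype.card V).factorial : ℝ) with hF
  have F0 : 0 < F := by positivity
  set t := Real.log P + B - Real.log F with ht
  have B0 : B ≤ 0 := div_nonpos_of_nonpos_of_nonneg (sum_nonpos fun i _ => Real.log_nonpos
    (by linarith [hs.den_pos hz i]) (by
      linarith [mul_nonneg (sq_nonneg z) (hs.nonneg i)])) (by norm_num)
  have e : P = F * (Real.exp t * Real.exp (-B)) := by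
    rw [← Real.exp_add, show t + -B = Real.log P - Real.log F by rw [ht]; ring, Real.exp_sub,
      Real.exp_log P0, Real.exp_log F0]
    field_simp
  have c := ham_ratio h hs hz hp (by
    rw [← hP, ← hF, e, mul_left_comm, ← Real.exp_add, ← Real.exp_add]
    exact le_mul_of_one_le_right F0.le (Real.one_le_exp (by linarith [(abs_le.1 a).1])))
  rw [← hP] at c
  set D := Real.exp ((∑ i, Real.log (1 + z ^ 2 * l i)) / 2) with hD
  set W := Fintype.card V * HW (fun u v => 1 + z * S u v) with hW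
  have D0 : 0 < D := Real.exp_pos _
  have e2 : W / F - Real.exp (LL l z) = (W / P - D) * (Real.exp t * Real.exp (-B)) +
      D * Real.exp (-B) * (Real.exp t - 1) := by
    rw [LL, sub_eq_add_neg (_ / 2), Real.exp_add, ← hD, ← hB, e]
    field_simp
    ring
  have t1 : Real.exp t ≤ Real.exp 1 := Real.exp_le_exp.2 (by linarith [(abs_le.1 a).2])
  have t2 : Real.exp (-B) ≤ Real.exp 1 := Real.exp_le_exp.2 (by linarith [(abs_le.1 b2).1])
  have t3 := Real.abs_exp_sub_one_le (a.trans θ1)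
  have e3 : Real.exp 2 = Real.exp 1 * Real.exp 1 := by rw [← Real.exp_add]; norm_num
  have K0 := KK_pos
  rw [e2, e3]
  refine (abs_add_le _ _).trans ?_
  rw [abs_mul, abs_mul, abs_mul, abs_mul, Real.abs_exp, Real.abs_exp, abs_of_pos D0]
  calc _ ≤ KK / Fintype.card V * (Real.exp 1 * Real.exp 1) + Real.exp 1 * Real.exp 1 * (2 * θ) := by
        gcongr
        linarith
    _ = _ := by ring

lemma prod_close {a b c : V → ℝ} {κ μ : ℝ} (hκ : 0 ≤ κ) (hμ : 1 ≤ μ) (c0 : ∀ i, 0 ≤ c i)
    (ha : ∀ i, |a i| ≤ μ * c i) (hb : ∀ i, |b i| ≤ μ * c i) (hd : ∀ i, |a i - b i| ≤ κ * c i)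
    (s : Finset V) : |∏ i ∈ s, a i - ∏ i ∈ s, b i| ≤ s.card * κ * μ ^ s.card * ∏ i ∈ s, c i := by
  induction s using Finset.induction_on with
  | empty => simp
  | insert x s hx ih =>
    rw [prod_insert hx, prod_insert hx, prod_insert hx, card_insert_of_notMem hx]
    have p : 0 ≤ ∏ i ∈ s, c i := prod_nonneg fun i _ => c0 i
    have q : |∏ i ∈ s, b i| ≤ μ ^ s.card * ∏ i ∈ s, c i := by
      rw [abs_prod, ← prod_const, ← prod_mul_distrib]
      exact prod_le_prod (fun _ _ => abs_nonneg _) fun i _ => hb i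
    have := c0 x
    have m : 0 ≤ μ := by linarith
    rw [show a x * ∏ i ∈ s, a i - b x * ∏ i ∈ s, b i = a x * (∏ i ∈ s, a i - ∏ i ∈ s, b i) +
      (a x - b x) * ∏ i ∈ s, b i by ring]
    refine (abs_add_le _ _).trans ?_
    rw [abs_mul, abs_mul]
    calc _ ≤ μ * c x * (s.card * κ * μ ^ s.card * ∏ i ∈ s, c i) +
          μ * (κ * c x * (μ ^ s.card * ∏ i ∈ s, c i)) := by
          refine add_le_add (by gcongr; exact ha x) (le_trans ?_ (le_mul_of_one_le_left
            (by positivity) hμ))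
          gcongr
          exact hd x
      _ = _ := by push_cast; ring

lemma hw_close (h : Good S) (hN : (1 : ℝ) ≤ Fintype.card V) :
    |HW (fun u v => 1 + S u v) - HW (fun u v => 1 + (1 - 1 / (Fintype.card V : ℝ) ^ 3) * S u v)| ≤
      Real.exp 1 / Fintype.card V * HW (fun u v => 1 + (1 - 1 / (Fintype.card V : ℝ)) * S u v) := by
  classical
  set N : ℝ := (Fintype.card V : ℝ) with hNd
  have N0 : 0 < N := by linarith
  have i0 : 0 < 1 / N := by positivity
  have i1 : 1 / N ≤ 1 := by rw [div_le_one N0]; exact hN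
  have i2 : 1 / N ^ 3 ≤ 1 / N := one_div_le_one_div_of_le N0 (le_self_pow₀ hN (by norm_num))
  have i3 : 0 < 1 / N ^ 3 := by positivity
  have c1 : ∀ s : ℝ, |s| ≤ 1 → 1 / N ≤ 1 + (1 - 1 / N) * s := fun s hs => by
    nlinarith [(abs_le.1 hs).1]
  have c2 : ∀ s w : ℝ, |s| ≤ 1 → 0 ≤ w → w ≤ 1 / N →
      |1 + (1 - w) * s| ≤ (1 + 1 / N) * (1 + (1 - 1 / N) * s) := fun s w hs w0 w1 => by
    obtain ⟨s1, s2⟩ := abs_le.1 hs
    rw [abs_of_nonneg (by nlinarith)]
    rcases le_total 0 s with g | g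
    · nlinarith [mul_nonneg g w0, mul_nonneg i0.le (mul_nonneg (sub_nonneg.2 i1) g)]
    · nlinarith [c1 s hs]
  rw [HW, HW, HW, ← sum_sub_distrib, mul_sum]
  refine (abs_sum_le_sum_abs _ _).trans (sum_le_sum fun σ _ => ?_)
  split_ifs
  · refine (prod_close (κ := 1 / N ^ 2) (μ := 1 + 1 / N)
      (c := fun i => 1 + (1 - 1 / N) * S i (σ i)) (by positivity) (by linarith)
      (fun i => i0.le.trans (c1 _ (h.bd _ _))) (fun i => by
        simpa using c2 _ 0 (h.bd i (σ i)) le_rfl i0.le)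
      (fun i => c2 _ _ (h.bd _ _) i3.le i2) (fun i => ?_) univ).trans ?_
    · rw [show 1 + S i (σ i) - (1 + (1 - 1 / N ^ 3) * S i (σ i)) = 1 / N ^ 3 * S i (σ i) by ring,
        abs_mul, abs_of_pos i3]
      calc _ ≤ 1 / N ^ 3 := mul_le_of_le_one_right i3.le (h.bd _ _)
        _ = 1 / N ^ 2 * (1 / N) := by ring
        _ ≤ _ := by gcongr; exact c1 _ (h.bd _ _)
    · refine mul_le_mul_of_nonneg_right ?_ (prod_nonneg fun i _ => i0.le.trans (c1 _ (h.bd _ _)))
      have : (1 + 1 / N) ^ Fintype.card V ≤ Real.exp 1 := by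
        refine (pow_le_pow_left₀ (by positivity) (show 1 + 1 / N ≤ Real.exp (1 / N) by
          linarith [Real.add_one_le_exp (1 / N)]) _).trans ?_
        rw [← Real.exp_nat_mul, ← hNd, mul_one_div_cancel N0.ne']
      rw [card_univ, ← hNd]
      calc _ ≤ N * (1 / N ^ 2) * Real.exp 1 := by gcongr
        _ = _ := by field_simp
  · simp

lemma hw_one (h : Good S) (hs : Spec S l)
    (H : Num (Fintype.card V) (1 / (Fintype.card V : ℝ) ^ 3) j) :
    |Fintype.card V * HW (fun u v => 1 + S u v) / (Fintype.card V).factorial -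
      Real.exp (LL l 1)| ≤ Real.exp 3 * (2 * (400000 * (4 * j + 1) ^ 3 / Fintype.card V) +
        (2 * KK + 11) / Fintype.card V) := by
  have hN : (4000 : ℝ) ≤ Fintype.card V := by exact_mod_cast H.big
  have a := hw_close h (by linarith)
  set N : ℝ := (Fintype.card V : ℝ) with hNd
  have N0 : 0 < N := by linarith
  have i1 : 1 / N ≤ 1 / 4000 := one_div_le_one_div_of_le (by norm_num) hN
  have i2 : 1 / N ^ 3 ≤ 1 / N :=
    one_div_le_one_div_of_le N0 (le_self_pow₀ (by linarith) (by norm_num))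
  have i3 : 0 < 1 / N ^ 3 := by positivity
  have H' : Num (Fintype.card V) (1 / N) j := ⟨by positivity, H.big, le_trans (by gcongr) H.small,
    H.h1, H.h2⟩
  have b := hw_z h hs H (z := 1 - 1 / N ^ 3) (by linarith) le_rfl
  have c := hw_z h hs H' (z := 1 - 1 / N) (by linarith) le_rfl
  rw [← hNd] at b c
  have L2 : ∀ z : ℝ, |z| ≤ 1 → Real.exp (LL l z) ≤ Real.exp 2 := fun z hz => by
    have hz2 : |z ^ 2| ≤ 1 := by rw [abs_pow]; exact pow_le_one₀ (abs_nonneg _) hz
    have b1 := hs.sum_abs h hz2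
    have b2 := hs.sum_abs h (s := -z ^ 2) (by rwa [abs_neg])
    simp only [neg_mul, ← sub_eq_add_neg] at b2
    exact Real.exp_le_exp.2 (by rw [LL]; linarith [(abs_le.1 b1).2, (abs_le.1 b2).1])
  set z := 1 - 1 / N ^ 3 with hz
  have z1 : |z ^ 2| ≤ 1 := by rw [abs_le]; constructor <;> nlinarith
  have z2 : |z ^ 2 - 1 ^ 2| ≤ 2 * (1 / N) := by rw [abs_le]; constructor <;> nlinarith
  have d : |LL l z - LL l 1| ≤ 4 * (1 / N) := by
    have d1 := (hs.sum_lip h z1 (t := 1 ^ 2) (by simp)).trans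
      (mul_le_mul_of_nonneg_left z2 (by norm_num))
    have d2 := (hs.sum_lip h (s := -z ^ 2) (t := -1 ^ 2) (by rwa [abs_neg]) (by simp)).trans
      (mul_le_mul_of_nonneg_left (show _ ≤ 2 * (1 / N) by
        rw [abs_le]; constructor <;> nlinarith) (by norm_num))
    simp only [neg_mul, ← sub_eq_add_neg] at d2
    rw [LL, LL, abs_le]
    constructor <;> linarith [(abs_le.1 d1).1, (abs_le.1 d1).2, (abs_le.1 d2).1, (abs_le.1 d2).2]
  have e2 : Real.exp 2 ≤ Real.exp 3 := Real.exp_le_exp.2 (by norm_num)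
  have f : |Real.exp (LL l z) - Real.exp (LL l 1)| ≤ Real.exp 3 * (8 * (1 / N)) := by
    rw [show Real.exp (LL l z) - Real.exp (LL l 1) =
      Real.exp (LL l 1) * (Real.exp (LL l z - LL l 1) - 1) by rw [Real.exp_sub]; field_simp,
      abs_mul, Real.abs_exp]
    have := Real.abs_exp_sub_one_le (d.trans (by linarith))
    exact mul_le_mul ((L2 1 (by simp)).trans e2) (by linarith) (abs_nonneg _) (Real.exp_pos _).le
  set θ : ℝ := 400000 * (4 * j + 1) ^ 3 / N with hθ
  have θ1 : θ ≤ 1 := by rw [hθ, div_le_one N0, hNd]; exact_mod_cast H.h2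
  have θ0 : 0 ≤ θ := by positivity
  have K0 := KK_pos
  have K1 : KK / N ≤ KK := div_le_self K0.le (by linarith)
  set F : ℝ := ((Fintype.card V).factorial : ℝ) with hF
  have F0 : 0 < F := by positivity
  have g : N * HW (fun u v => 1 + (1 - 1 / N) * S u v) / F ≤ Real.exp 2 * (3 + KK) := by
    have := L2 (1 - 1 / N) (by rw [abs_le]; constructor <;> linarith)
    have := mul_le_mul_of_nonneg_left (show 2 * θ + KK / N ≤ 2 + KK by linarith)
      (Real.exp_pos 2).le
    linarith [(abs_le.1 c).2]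
  have k : |N * HW (fun u v => 1 + S u v) / F - N * HW (fun u v => 1 + z * S u v) / F| ≤
      Real.exp 3 * ((3 + KK) / N) := by
    rw [← sub_div, ← mul_sub, abs_div, abs_mul, abs_of_pos N0, abs_of_pos F0]
    calc _ ≤ N * (Real.exp 1 / N * HW (fun u v => 1 + (1 - 1 / N) * S u v)) / F := by gcongr
      _ = Real.exp 1 / N * (N * HW (fun u v => 1 + (1 - 1 / N) * S u v) / F) := by ring
      _ ≤ Real.exp 1 / N * (Real.exp 2 * (3 + KK)) := by gcongr
      _ = _ := by rw [show (3 : ℝ) = 1 + 2 by norm_num, Real.exp_add]; ring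
  have b' := b.trans (mul_le_mul_of_nonneg_right e2 (by positivity))
  have := abs_sub_le (N * HW (fun u v => 1 + S u v) / F) (N * HW (fun u v => 1 + z * S u v) / F)
    (Real.exp (LL l 1))
  have := abs_sub_le (N * HW (fun u v => 1 + z * S u v) / F) (Real.exp (LL l z)) (Real.exp (LL l 1))
  have : Real.exp 3 * (2 * θ + (2 * KK + 11) / N) = Real.exp 3 * ((3 + KK) / N) +
    Real.exp 3 * (2 * θ + KK / N) + Real.exp 3 * (8 * (1 / N)) := by ring
  linarith

end Pool.Agent.P.MP_012ca0_co.Ev
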