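import Mathlib

/-! Permanents of submatrices as sums over perfect matchings. -/

set_option autoImplicit false
set_option linter.unusedSectionVars false

open Finset

noncomputable section

namespace Pool.Agent.P.MP_012ca0_co.Ev

variable {V : Type} [Fintype V] [DecidableEq V]

/-- perfect matchings between the rows `R` and the columns `C` -/
def PM (R C : Finset V) : Finset (Finset (V × V)) := by
  classical
  exact (R ×ˢ C).powerset.filter fun M =>
    (∀ r ∈ R, ∃! c, (r, c) ∈ M) ∧ ∀ c ∈ C, ∃! r, (r, c) ∈ M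

/-- the permanent of the submatrix with rows `R` and columns `C` -/
def per (A : V → V → ℝ) (R C : Finset V) : ℝ := ∑ M ∈ PM R C, ∏ e ∈ M, A e.1 e.2

lemma mem_PM {R C : Finset V} {M : Finset (V × V)} : M ∈ PM R C ↔
    (∀ e ∈ M, e.1 ∈ R ∧ e.2 ∈ C) ∧ (∀ r ∈ R, ∃! c, (r, c) ∈ M) ∧ ∀ c ∈ C, ∃! r, (r, c) ∈ M := by
  simp only [PM, mem_filter, mem_powerset, subset_iff, mem_product]

lemma fiber {R C : Finset V} {u v : V} (hu : u ∈ R) (hv : v ∈ C) (F : Finset (V × V) → ℝ) :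
    ∑ M ∈ PM R C, (if (u, v) ∈ M then F (M.erase (u, v)) else 0) =
      ∑ M ∈ PM (R.erase u) (C.erase v), F M := by
  rw [← sum_filter]
  refine sum_bij' (fun M _ => M.erase (u, v)) (fun M _ => insert (u, v) M) ?_ ?_ ?_ ?_ ?_
  · intro M hM
    obtain ⟨hM, h0⟩ := mem_filter.1 hM
    obtain ⟨h1, h2, h3⟩ := mem_PM.1 hM
    refine mem_PM.2 ⟨fun e he => ?_, fun r hr => ?_, fun c hc => ?_⟩
    · obtain ⟨e1, e2⟩ := mem_erase.1 he
      refine ⟨mem_erase.2 ⟨fun h => e1 ?_, (h1 e e2).1⟩, mem_erase.2 ⟨fun h => e1 ?_, (h1 e e2).2⟩⟩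
      · exact Prod.ext h ((h2 u hu).unique (h ▸ e2) h0)
      · exact Prod.ext ((h3 v hv).unique (h ▸ e2) h0) h
    · obtain ⟨r1, r2⟩ := mem_erase.1 hr
      obtain ⟨c, c1, c2⟩ := h2 r r2
      exact ⟨c, mem_erase.2 ⟨fun h => r1 (congrArg Prod.fst h), c1⟩,
        fun c' hc' => c2 c' (mem_erase.1 hc').2⟩
    · obtain ⟨r1, r2⟩ := mem_erase.1 hc
      obtain ⟨r, c1, c2⟩ := h3 c r2
      exact ⟨r, mem_erase.2 ⟨fun h => r1 (congrArg Prod.snd h), c1⟩,
        fun c' hc' => c2 c' (mem_erase.1 hc').2⟩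
  · intro M hM
    obtain ⟨h1, h2, h3⟩ := mem_PM.1 hM
    refine mem_filter.2 ⟨mem_PM.2 ⟨fun e he => ?_, fun r hr => ?_, fun c hc => ?_⟩,
      mem_insert_self _ _⟩
    · rcases mem_insert.1 he with rfl | he
      · exact ⟨hu, hv⟩
      · exact ⟨mem_of_mem_erase (h1 e he).1, mem_of_mem_erase (h1 e he).2⟩
    · by_cases h : r = u
      · subst h
        refine ⟨v, mem_insert_self _ _, fun c hc => ?_⟩
        rcases mem_insert.1 hc with h | h
        · exact congrArg Prod.snd h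
        · exact absurd (h1 _ h).1 (notMem_erase _ _)
      · obtain ⟨c, c1, c2⟩ := h2 r (mem_erase.2 ⟨h, hr⟩)
        refine ⟨c, mem_insert_of_mem c1, fun c' hc' => c2 c' ?_⟩
        exact (mem_insert.1 hc').resolve_left fun h' => h (congrArg Prod.fst h')
    · by_cases h : c = v
      · subst h
        refine ⟨u, mem_insert_self _ _, fun r hr => ?_⟩
        rcases mem_insert.1 hr with h | h
        · exact congrArg Prod.fst h
        · exact absurd (h1 _ h).2 (notMem_erase _ _)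
      · obtain ⟨r, c1, c2⟩ := h3 c (mem_erase.2 ⟨h, hc⟩)
        refine ⟨r, mem_insert_of_mem c1, fun c' hc' => c2 c' ?_⟩
        exact (mem_insert.1 hc').resolve_left fun h' => h (congrArg Prod.snd h')
  · intro M hM
    exact insert_erase (mem_filter.1 hM).2
  · intro M hM
    exact erase_insert fun h => notMem_erase _ _ ((mem_PM.1 hM).1 _ h).1
  · intro M _
    rfl

lemma fiber_per (A : V → V → ℝ) {R C : Finset V} {u v : V} (hu : u ∈ R) (hv : v ∈ C) :
    ∑ M ∈ PM R C, (if (u, v) ∈ M then ∏ e ∈ M, A e.1 e.2 else 0) =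
      A u v * per A (R.erase u) (C.erase v) := by
  rw [per, mul_sum, ← fiber hu hv]
  refine sum_congr rfl fun M _ => ?_
  split_ifs with h
  · rw [← mul_prod_erase M _ h]
  · rfl

lemma per_row (A : V → V → ℝ) {R : Finset V} (C : Finset V) {u : V} (hu : u ∈ R) :
    per A R C = ∑ v ∈ C, A u v * per A (R.erase u) (C.erase v) := by
  rw [← sum_congr rfl fun v hv => fiber_per A hu hv, sum_comm, per]
  refine sum_congr rfl fun M hM => ?_
  obtain ⟨h1, h2, -⟩ := mem_PM.1 hM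
  obtain ⟨c, c1, c2⟩ := h2 u hu
  rw [sum_eq_single_of_mem c (h1 _ c1).2 fun b _ hb => if_neg fun h => hb (c2 b h), if_pos c1]

lemma per_col (A : V → V → ℝ) (R : Finset V) {C : Finset V} {v : V} (hv : v ∈ C) :
    per A R C = ∑ u ∈ R, A u v * per A (R.erase u) (C.erase v) := by
  rw [← sum_congr rfl fun u hu => fiber_per A hu hv, sum_comm, per]
  refine sum_congr rfl fun M hM => ?_
  obtain ⟨h1, -, h2⟩ := mem_PM.1 hM
  obtain ⟨c, c1, c2⟩ := h2 v hv
  rw [sum_eq_single_of_mem c (h1 _ c1).1 fun b _ hb => if_neg fun h => hb (c2 b h), if_pos c1]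

lemma per_empty (A : V → V → ℝ) : per A ∅ ∅ = 1 := by
  have : PM (∅ : Finset V) ∅ = {∅} := by
    ext M
    rw [mem_PM, mem_singleton]
    simp [eq_empty_iff_forall_notMem]
  simp [per, this]

lemma per_bounds (A : V → V → ℝ) {a b : ℝ} (ha : 0 ≤ a) (h1 : ∀ u v, a ≤ A u v)
    (h2 : ∀ u v, A u v ≤ b) (m : ℕ) : ∀ R C : Finset V, R.card = m → C.card = m →
      a ^ m * m.factorial ≤ per A R C ∧ per A R C ≤ b ^ m * m.factorial := by
  induction m with
  | zero =>
    intro R C hR hC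
    rw [card_eq_zero.1 hR, card_eq_zero.1 hC, per_empty]
    simp
  | succ m ih =>
    intro R C hR hC
    obtain ⟨u, hu⟩ : R.Nonempty := card_pos.1 (by omega)
    have h := fun v (hv : v ∈ C) => ih (R.erase u) (C.erase v)
      (by rw [card_erase_of_mem hu, hR]; rfl) (by rw [card_erase_of_mem hv, hC]; rfl)
    have p : 0 ≤ a ^ m * m.factorial := by positivity
    rw [per_row A C hu]
    constructor
    · calc a ^ (m + 1) * (m + 1).factorial = ∑ _v ∈ C, a * (a ^ m * m.factorial) := by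
            rw [sum_const, hC, nsmul_eq_mul, Nat.factorial_succ]; push_cast; ring
        _ ≤ _ := sum_le_sum fun v hv => mul_le_mul (h1 u v) (h v hv).1 p (ha.trans (h1 u v))
    · calc _ ≤ ∑ _v ∈ C, b * (b ^ m * m.factorial) := sum_le_sum fun v hv =>
            mul_le_mul (h2 u v) (h v hv).2 (p.trans (h v hv).1) (ha.trans ((h1 u v).trans (h2 u v)))
        _ = _ := by rw [sum_const, hC, nsmul_eq_mul, Nat.factorial_succ]; push_cast; ring

lemma hasDerivAt_per (S : V → V → ℝ) (z : ℝ) :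
    HasDerivAt (fun z => per (fun u v => 1 + z * S u v) univ univ)
      (∑ u, ∑ v, S u v * per (fun u v => 1 + z * S u v) (univ.erase u) (univ.erase v)) z := by
  have h : ∀ M ∈ PM (univ : Finset V) univ, HasDerivAt (fun z => ∏ e ∈ M, (1 + z * S e.1 e.2))
      (∑ e ∈ M, (∏ e' ∈ M.erase e, (1 + z * S e'.1 e'.2)) • S e.1 e.2) z := fun M _ =>
    HasDerivAt.fun_finsetProd fun e _ => by
      simpa using ((hasDerivAt_id z).mul_const (S e.1 e.2)).const_add 1
  refine (HasDerivAt.fun_sum h).congr_deriv (Eq.symm ?_)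
  rw [← Fintype.sum_prod_type']
  have : ∀ e : V × V, S e.1 e.2 * per (fun u v => 1 + z * S u v) (univ.erase e.1) (univ.erase e.2)
      = ∑ M ∈ PM univ univ, if e ∈ M then
        (∏ e' ∈ M.erase e, (1 + z * S e'.1 e'.2)) • S e.1 e.2 else 0 := by
    intro e
    rw [fiber (mem_univ e.1) (mem_univ e.2)
      (fun M => (∏ e' ∈ M, (1 + z * S e'.1 e'.2)) • S e.1 e.2), per, mul_sum]
    exact sum_congr rfl fun M _ => by rw [smul_eq_mul, mul_comm]
  rw [sum_congr rfl fun e _ => this e, sum_comm]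
  refine sum_congr rfl fun M _ => ?_
  rw [← sum_filter, filter_mem_eq_inter, univ_inter]

lemma per_eq_sum_perm (A : V → V → ℝ) (W : Finset V) :
    per A W W = ∑ ρ : Equiv.Perm V, if ∀ i, i ∉ W → ρ i = i then ∏ i ∈ W, A i (ρ i) else 0 := by
  classical
  rw [← sum_filter, per]
  symm
  have hW : ∀ ρ : Equiv.Perm V, (∀ i, i ∉ W → ρ i = i) → ∀ i ∈ W, ρ i ∈ W := by
    intro ρ h i hi
    by_contra hc
    exact hc ((ρ.injective (h _ hc)).symm ▸ hi)
  refine sum_bij (fun ρ _ => W.image fun i => (i, ρ i)) ?_ ?_ ?_ ?_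
  · intro ρ hρ
    have h := (mem_filter.1 hρ).2
    refine mem_PM.2 ⟨fun e he => ?_, fun r hr => ?_, fun c hc => ?_⟩
    · obtain ⟨i, hi, rfl⟩ := mem_image.1 he
      exact ⟨hi, hW ρ h i hi⟩
    · refine ⟨ρ r, mem_image_of_mem _ hr, fun c hc => ?_⟩
      obtain ⟨i, -, e⟩ := mem_image.1 hc
      obtain ⟨rfl, e2⟩ := Prod.mk.inj e
      exact e2.symm
    · refine ⟨ρ⁻¹ c, mem_image.2 ⟨ρ⁻¹ c, ?_, by simp⟩, fun r hr => ?_⟩
      · by_contra hn
        have := h _ hn
        simp only [Equiv.Perm.coe_inv, Equiv.apply_symm_apply] at this hn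
        exact hn (this ▸ hc)
      · obtain ⟨i, -, e⟩ := mem_image.1 hr
        obtain ⟨rfl, rfl⟩ := Prod.mk.inj e
        simp
  · intro ρ hρ ρ' hρ' e
    ext i
    by_cases hi : i ∈ W
    · have : (i, ρ i) ∈ W.image fun i => (i, ρ' i) := e ▸ mem_image_of_mem _ hi
      obtain ⟨j, -, e⟩ := mem_image.1 this
      obtain ⟨rfl, e2⟩ := Prod.mk.inj e
      exact e2.symm
    · rw [(mem_filter.1 hρ).2 i hi, (mem_filter.1 hρ').2 i hi]
  · intro M hM
    obtain ⟨h1, h2, h3⟩ := mem_PM.1 hM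
    have : ∀ i, ∃ j, (i ∈ W → (i, j) ∈ M) ∧ (i ∉ W → j = i) := fun i => by
      by_cases hi : i ∈ W
      · obtain ⟨c, c1, -⟩ := h2 i hi
        exact ⟨c, fun _ => c1, fun h => absurd hi h⟩
      · exact ⟨i, fun h => absurd h hi, fun _ => rfl⟩
    choose f f1 f2 using this
    have inj : Function.Injective f := by
      intro i j e
      by_cases hi : i ∈ W <;> by_cases hj : j ∈ W
      · exact (h3 _ (h1 _ (f1 i hi)).2).unique (f1 i hi) (e ▸ f1 j hj)
      · exact absurd (f2 j hj ▸ e ▸ (h1 _ (f1 i hi)).2) hj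
      · exact absurd (f2 i hi ▸ e ▸ (h1 _ (f1 j hj)).2) hi
      · rw [← f2 i hi, ← f2 j hj, e]
    refine ⟨Equiv.ofBijective f (Finite.injective_iff_bijective.1 inj),
      mem_filter.2 ⟨mem_univ _, f2⟩, ?_⟩
    ext e
    rw [mem_image]
    constructor
    · rintro ⟨i, hi, rfl⟩
      exact f1 i hi
    · intro he
      exact ⟨e.1, (h1 e he).1, Prod.ext rfl ((h2 _ (h1 e he).1).unique (f1 _ (h1 e he).1) he)⟩
  · intro ρ _
    rw [prod_image fun i _ j _ e => congrArg Prod.fst e]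

end Pool.Agent.P.MP_012ca0_co.Ev
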