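import Pool.Agent.P.MP_012ca0_co.Ev.Good

/-! Ratio estimates for permanental minors. -/

set_option autoImplicit false
set_option linter.unusedSectionVars false

open Finset

noncomputable section

namespace Pool.Agent.P.MP_012ca0_co.Ev

variable {V : Type} [Fintype V] [DecidableEq V] {Y : V → V → ℝ}

/-- permanental minors of `J + Y` -/
def Pm (Y : V → V → ℝ) (R C : Finset V) : ℝ := per (fun u v => 1 + Y u v) R C

lemma P_row {R : Finset V} (C : Finset V) {u : V} (hu : u ∈ R) :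
    Pm Y R C = ∑ v ∈ C, (1 + Y u v) * Pm Y (R.erase u) (C.erase v) := per_row _ C hu

lemma P_col (R : Finset V) {C : Finset V} {v : V} (hv : v ∈ C) :
    Pm Y R C = ∑ u ∈ R, (1 + Y u v) * Pm Y (R.erase u) (C.erase v) := per_col _ R hv

lemma Good.P_nonneg (h : Good Y) (R C : Finset V) : 0 ≤ Pm Y R C :=
  sum_nonneg fun _ _ => prod_nonneg fun e _ => h.nonneg e.1 e.2

/-- ratio bound for exchanging a deleted row at level `k` -/
def RowR (Y : V → V → ℝ) (k : ℕ) (r : ℝ) : Prop :=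
  ∀ R C : Finset V, C.card + k = Fintype.card V → R.card = C.card + 1 → ∀ u ∈ R, ∀ u' ∈ R,
    Pm Y (R.erase u) C ≤ (1 + r) * Pm Y (R.erase u') C

lemma RowR.mono (h : Good Y) {k : ℕ} {r r' : ℝ} (H : RowR Y k r) (hr : r ≤ r') : RowR Y k r' :=
  fun R C a b u hu u' hu' => (H R C a b u hu u' hu').trans
    (mul_le_mul_of_nonneg_right (by linarith) (h.P_nonneg _ _))

lemma rowR_base (h : Good Y) {δ : ℝ} (hδ : 0 < δ) (h1 : ∀ u v, δ ≤ 1 + Y u v) (k : ℕ) :
    RowR Y k (2 / δ) := by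
  intro R C _ _ u hu u' hu'
  have p : 0 < 2 / δ := by positivity
  by_cases e : u = u'
  · subst e
    nlinarith [h.P_nonneg (R.erase u) C]
  rw [P_row C (mem_erase.2 ⟨Ne.symm e, hu'⟩), P_row C (mem_erase.2 ⟨e, hu⟩), erase_right_comm,
    mul_sum]
  refine sum_le_sum fun w _ => ?_
  rw [← mul_assoc]
  refine mul_le_mul_of_nonneg_right ?_ (h.P_nonneg _ _)
  have a : 2 / δ * δ ≤ 2 / δ * (1 + Y u w) := mul_le_mul_of_nonneg_left (h1 u w) p.le
  rw [div_mul_cancel₀ _ hδ.ne'] at a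
  nlinarith [h.le_two u' w, h.nonneg u w]

lemma rowR_step (h : Good Y) {k : ℕ} {r : ℝ} (hr : 0 ≤ r) (hk : 100 * (k + 1) ≤ Fintype.card V)
    (H : RowR Y (k + 2) r) : RowR Y k (0.91 * r + 5 * (k + 1) / Fintype.card V) := by
  intro R C hC hR u hu u' hu'
  set N : ℝ := (Fintype.card V : ℝ) with hN
  have hkN : 100 * ((k : ℝ) + 1) ≤ N := by rw [hN]; exact_mod_cast hk
  have k0 : (0 : ℝ) ≤ k := by positivity
  have hN0 : 0 < N := by linarith
  by_cases e : u = u'
  · subst e
    have : 0 ≤ 0.91 * r + 5 * (k + 1) / N := by positivity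
    nlinarith [h.P_nonneg (R.erase u) C]
  have hu1 : u' ∈ R.erase u := mem_erase.2 ⟨Ne.symm e, hu'⟩
  rw [P_row C hu1, P_row C (mem_erase.2 ⟨e, hu⟩), erase_right_comm (a := u') (b := u)]
  set R0 := (R.erase u).erase u' with hR0
  have c0 : R0.card + 1 = C.card := by
    rw [hR0, card_erase_of_mem hu1, card_erase_of_mem hu]; omega
  have cR : (R0ᶜ.card : ℝ) = k + 1 := by
    rw [card_compl_real (k := k + 1) (by omega)]; push_cast; ring
  have cC : (Cᶜ.card : ℝ) = k := card_compl_real hC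
  obtain ⟨w', hw', hmin⟩ := exists_min_image C (fun w => Pm Y R0 (C.erase w))
    (card_pos.1 (by omega))
  set m := Pm Y R0 (C.erase w') with hm
  have m0 : 0 ≤ m := h.P_nonneg _ _
  have key : ∀ w ∈ C, (N - 2 * (k + 1)) * Pm Y R0 (C.erase w) ≤
      m * (N + r * ((∑ x, |Y x w' - Y x w|) / 2 + (k + 1))) := by
    intro w hw
    have D0 : 0 ≤ ∑ x, |Y x w' - Y x w| := sum_nonneg fun _ _ => abs_nonneg _
    by_cases ew : w = w'
    · subst ew
      rw [← hm]
      have : 0 ≤ r * ((∑ x, |Y x w - Y x w|) / 2 + (k + 1)) := by positivity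
      nlinarith
    have hw1 : w' ∈ C.erase w := mem_erase.2 ⟨Ne.symm ew, hw'⟩
    have e1 := P_col (Y := Y) R0 hw1
    have e2 := P_col (Y := Y) R0 (mem_erase.2 ⟨ew, hw⟩)
    rw [erase_right_comm (a := w') (b := w), ← hm] at e2
    set C0 := (C.erase w).erase w' with hC0
    have c1 : C0.card + 2 = C.card := by
      rw [hC0, card_erase_of_mem hw1, card_erase_of_mem hw]; omega
    obtain ⟨x0, hx0, hx⟩ := exists_min_image R0 (fun x => Pm Y (R0.erase x) C0)
      (card_pos.1 (by omega))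
    set c := Pm Y (R0.erase x0) C0 with hc
    have c2 : 0 ≤ c := h.P_nonneg _ _
    have a1 := h.centre w w' R0 (ν := fun x => Pm Y (R0.erase x) C0) (c := c) (o := r * c)
      (by positivity) hx fun x hx' => by
        have := H R0 C0 (by omega) (by omega) x hx' x0 hx0
        linarith
    rw [← e1, ← e2, cR, abs_of_nonneg c2] at a1
    have a2 : (N - 2 * (k + 1)) * c ≤ m := by
      have := (h.mass_col w R0).1
      rw [cR] at this
      rw [e2]
      refine (mul_le_mul_of_nonneg_right this c2).trans ?_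
      rw [sum_mul]
      exact sum_le_sum fun x hx' => mul_le_mul_of_nonneg_left (hx x hx') (h.nonneg _ _)
    have a3 := mul_le_mul_of_nonneg_left a1 (show 0 ≤ N - 2 * (k + 1) by linarith)
    have a4 := mul_le_mul_of_nonneg_left a2
      (show 0 ≤ r * ((∑ x, |Y x w' - Y x w|) / 2 + (k + 1)) + 2 * (k + 1) by positivity)
    nlinarith
  have s1 : (N - 2 * (k + 1)) * ∑ w ∈ C, (1 + Y u' w) * Pm Y R0 (C.erase w) ≤
      m * (N * (N + r * (k + 1)) + r / 2 * (1.72 * N ^ 2)) := by
    rw [mul_sum]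
    calc _ ≤ ∑ w ∈ C, (1 + Y u' w) * (m * (N + r * ((∑ x, |Y x w' - Y x w|) / 2 + (k + 1)))) :=
          sum_le_sum fun w hw => by
            have := mul_le_mul_of_nonneg_left (key w hw) (h.nonneg u' w)
            linarith
      _ = m * ((∑ w ∈ C, (1 + Y u' w)) * (N + r * (k + 1)) +
            r / 2 * ∑ w ∈ C, (1 + Y u' w) * ∑ x, |Y x w' - Y x w|) := by
          rw [sum_mul, mul_sum, ← sum_add_distrib, mul_sum]
          exact sum_congr rfl fun w _ => by ring
      _ ≤ _ := by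
          have b1 := (h.mass_row u' C).2
          have b2 : ∑ w ∈ C, (1 + Y u' w) * ∑ x, |Y x w' - Y x w| ≤ 1.72 * N ^ 2 :=
            (sum_le_sum_of_subset_of_nonneg (subset_univ _) fun w _ _ =>
              mul_nonneg (h.nonneg _ _) (sum_nonneg fun _ _ => abs_nonneg _)).trans (h.kl u' w')
          gcongr
  have s2 : (N - 2 * (k + 1)) * m ≤ ∑ w ∈ C, (1 + Y u w) * Pm Y R0 (C.erase w) := by
    have := (h.mass_row u C).1
    rw [cC] at this
    refine (mul_le_mul_of_nonneg_right (show N - 2 * (k + 1) ≤ _ by linarith) m0).trans ?_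
    rw [sum_mul]
    exact sum_le_sum fun w hw => mul_le_mul_of_nonneg_left (hmin w hw) (h.nonneg _ _)
  obtain ⟨θ, hθ⟩ : ∃ θ, (k : ℝ) + 1 = θ * N := ⟨(k + 1) / N, by field_simp⟩
  have θ0 : 0 ≤ θ := by by_contra hh; nlinarith
  have θ1 : θ ≤ 1 / 100 := by by_contra hh; nlinarith
  have s3 : N * (N + r * (k + 1)) + r / 2 * (1.72 * N ^ 2) ≤
      (1 + (0.91 * r + 5 * (k + 1) / N)) * (N - 2 * (k + 1)) ^ 2 := by
    have : 1 + r * (θ + 0.86) ≤ (1 + (0.91 * r + 5 * θ)) * (1 - 2 * θ) ^ 2 := by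
      have q1 : 1 - 4 * θ ≤ (1 - 2 * θ) ^ 2 := by nlinarith
      have q2 : 1 + r * (θ + 0.86) ≤ (1 + (0.91 * r + 5 * θ)) * (1 - 4 * θ) := by nlinarith
      exact q2.trans (mul_le_mul_of_nonneg_left q1 (by positivity))
    rw [hθ, mul_div_assoc, mul_div_cancel_right₀ _ hN0.ne']
    calc _ = (1 + r * (θ + 0.86)) * N ^ 2 := by ring
      _ ≤ (1 + (0.91 * r + 5 * θ)) * (1 - 2 * θ) ^ 2 * N ^ 2 := by gcongr
      _ = _ := by ring
  have p : 0 < N - 2 * (k + 1) := by linarith
  have ρ0 : 0 ≤ 1 + (0.91 * r + 5 * (k + 1) / N) := by positivity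
  refine le_of_mul_le_mul_left (s1.trans ?_) p
  calc _ ≤ m * ((1 + (0.91 * r + 5 * (k + 1) / N)) * (N - 2 * (k + 1)) ^ 2) := by gcongr
    _ = (N - 2 * (k + 1)) * ((1 + (0.91 * r + 5 * (k + 1) / N)) * ((N - 2 * (k + 1)) * m)) := by
        ring
    _ ≤ _ := by gcongr

lemma rowR_iter (h : Good Y) {δ : ℝ} (hδ : 0 < δ) (h1 : ∀ u v, δ ≤ 1 + Y u v) (j : ℕ) :
    ∀ k : ℕ, 100 * (k + 2 * j + 1) ≤ Fintype.card V →
      RowR Y k (0.91 ^ j * (2 / δ) + 60 * (k + 22) / Fintype.card V) := by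
  induction j with
  | zero =>
    intro k _
    refine (rowR_base h hδ h1 k).mono h ?_
    have : (0 : ℝ) ≤ 60 * (k + 22) / Fintype.card V := by positivity
    linarith
  | succ j ih =>
    intro k hk
    refine (rowR_step h (by positivity) (by omega) (ih (k + 2) (by omega))).mono h ?_
    have hN : (0 : ℝ) < Fintype.card V := by exact_mod_cast (by omega : 0 < Fintype.card V)
    have : 0.91 * (60 * (((k + 2 : ℕ) : ℝ) + 22) / Fintype.card V) + 5 * (k + 1) / Fintype.card V ≤
        60 * (k + 22) / Fintype.card V := by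
      rw [← mul_div_assoc, ← add_div]
      gcongr
      push_cast
      have : (0 : ℝ) ≤ k := by positivity
      linarith
    rw [pow_succ]
    linarith

/-- normalised minors -/
def pn (Y : V → V → ℝ) (R C : Finset V) : ℝ :=
  (Fintype.card V : ℝ) ^ Cᶜ.card * Pm Y R C / Pm Y univ univ

/-- the standing assumption: entries at least `δ`, and `δ` not exponentially small -/
structure Pos (Y : V → V → ℝ) (δ : ℝ) : Prop where
  pos : 0 < δ
  le : ∀ u v, δ ≤ 1 + Y u v
  big : 4000 ≤ Fintype.card V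
  small : 0.91 ^ (Fintype.card V / 400) * (2 / δ) ≤ 1 / Fintype.card V

variable {δ : ℝ}

lemma Pos.P_pos (h : Good Y) (hp : Pos Y δ) : 0 < Pm Y univ univ := by
  have := (per_bounds (fun u v => 1 + Y u v) hp.pos.le hp.le h.le_two _ univ univ rfl rfl).1
  have p := hp.pos
  exact lt_of_lt_of_le (by positivity) this

lemma Pos.rowR (h : Good Y) (hp : Pos Y δ) {k : ℕ} (hk : 200 * (k + 1) ≤ Fintype.card V) :
    RowR Y k ((60 * k + 1321) / Fintype.card V) := by
  refine (rowR_iter h hp.pos hp.le (Fintype.card V / 400) k (by omega)).mono h ?_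
  have := hp.small
  have e : (60 * (k : ℝ) + 1321) / Fintype.card V =
      1 / Fintype.card V + 60 * (k + 22) / Fintype.card V := by ring
  linarith

lemma pn_univ (h : Good Y) (hp : Pos Y δ) : pn Y univ univ = 1 := by
  simp [pn, (hp.P_pos h).ne']

lemma pn_nonneg (h : Good Y) (R C : Finset V) : 0 ≤ pn Y R C :=
  div_nonneg (mul_nonneg (by positivity) (h.P_nonneg _ _)) (h.P_nonneg _ _)

lemma card_compl_erase {C : Finset V} {v : V} (hv : v ∈ C) : (C.erase v)ᶜ.card = Cᶜ.card + 1 := by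
  have := card_le_univ C
  have := card_pos.2 ⟨v, hv⟩
  rw [card_compl, card_compl, card_erase_of_mem hv]; omega

lemma pn_row {R C : Finset V} {u : V} (hu : u ∈ R) :
    pn Y R C = (∑ v ∈ C, (1 + Y u v) * pn Y (R.erase u) (C.erase v)) / Fintype.card V := by
  have hN : (0 : ℝ) < Fintype.card V := by exact_mod_cast Fintype.card_pos_iff.2 ⟨u⟩
  rw [pn, P_row C hu, mul_sum, sum_div, sum_div]
  refine sum_congr rfl fun v hv => ?_
  rw [pn, card_compl_erase hv]
  field_simp
  ring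

lemma pn_col {R C : Finset V} {v : V} (hv : v ∈ C) :
    pn Y R C = (∑ u ∈ R, (1 + Y u v) * pn Y (R.erase u) (C.erase v)) / Fintype.card V := by
  have hN : (0 : ℝ) < Fintype.card V := by exact_mod_cast Fintype.card_pos_iff.2 ⟨v⟩
  rw [pn, P_col R hv, mul_sum, sum_div, sum_div]
  refine sum_congr rfl fun u _ => ?_
  rw [pn, card_compl_erase hv]
  field_simp
  ring

lemma exists_up {R C : Finset V} {k : ℕ} (hR : R.card = C.card)
    (hC : C.card + (k + 1) = Fintype.card V) : ∃ R' C' : Finset V, ∃ u ∈ R', ∃ v ∈ C',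
      R = R'.erase u ∧ C = C'.erase v ∧ R'.card = C'.card ∧ C'.card + k = Fintype.card V := by
  obtain ⟨u, hu⟩ : Rᶜ.Nonempty := card_pos.1 (by rw [card_compl]; omega)
  obtain ⟨v, hv⟩ : Cᶜ.Nonempty := card_pos.1 (by rw [card_compl]; omega)
  rw [mem_compl] at hu hv
  refine ⟨insert u R, insert v C, u, mem_insert_self _ _, v, mem_insert_self _ _,
    (erase_insert hu).symm, (erase_insert hv).symm, ?_, ?_⟩
  · rw [card_insert_of_notMem hu, card_insert_of_notMem hv, hR]
  · rw [card_insert_of_notMem hv]; omega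

lemma pn_step (h : Good Y) (hp : Pos Y δ) {k : ℕ} (hk : 200 * (k + 2) ≤ Fintype.card V)
    {R C : Finset V} (hR : R.card = C.card) (hC : C.card + k = Fintype.card V) {u v : V}
    (hu : u ∈ R) (hv : v ∈ C) :
    |pn Y (R.erase u) (C.erase v) - pn Y R C| ≤
      (70 * k + 1400) / Fintype.card V * pn Y R C := by
  set N : ℝ := (Fintype.card V : ℝ) with hN
  have hkN : 200 * ((k : ℝ) + 2) ≤ N := by rw [hN]; exact_mod_cast hk
  have hN4 : (4000 : ℝ) ≤ N := by rw [hN]; exact_mod_cast hp.big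
  have k0 : (0 : ℝ) ≤ k := by positivity
  have hN0 : 0 < N := by linarith
  have hc := card_pos.2 ⟨v, hv⟩
  have H := hp.rowR h (k := k + 1) (by omega) R (C.erase v)
    (by rw [card_erase_of_mem hv]; omega) (by rw [card_erase_of_mem hv]; omega)
  set r := (60 * ((k + 1 : ℕ) : ℝ) + 1321) / N with hr
  have r0 : 0 ≤ r := by positivity
  have H' : ∀ x ∈ R, ∀ x' ∈ R,
      pn Y (R.erase x) (C.erase v) ≤ (1 + r) * pn Y (R.erase x') (C.erase v) := by
    intro x hx x' hx'
    rw [pn, pn, ← mul_div_assoc, mul_left_comm]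
    have := hp.P_pos h
    gcongr
    exact H x hx x' hx'
  have e := pn_col (Y := Y) (R := R) hv
  rw [← hN, eq_div_iff hN0.ne'] at e
  set a := pn Y (R.erase u) (C.erase v)
  set b := pn Y R C
  have a0 : 0 ≤ a := pn_nonneg h _ _
  have b0 : 0 ≤ b := pn_nonneg h _ _
  obtain ⟨m1, m2⟩ := h.mass_col v R
  rw [card_compl_real (k := k) (by omega), ← hN] at m1
  have u1 : b * N ≤ N * ((1 + r) * a) := by
    rw [e]
    refine le_trans ?_ (mul_le_mul_of_nonneg_right m2 (by positivity))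
    rw [sum_mul]
    exact sum_le_sum fun x hx => mul_le_mul_of_nonneg_left (H' x hx u hu) (h.nonneg _ _)
  have u2 : (N - 2 * k) * a ≤ (1 + r) * (b * N) := by
    rw [e]
    refine (mul_le_mul_of_nonneg_right m1 a0).trans ?_
    rw [sum_mul, mul_sum]
    refine sum_le_sum fun x hx => ?_
    rw [mul_left_comm]
    exact mul_le_mul_of_nonneg_left (H' u hu x hx) (h.nonneg _ _)
  obtain ⟨θ, hθ⟩ : ∃ θ, (k : ℝ) = θ * N := ⟨k / N, by field_simp⟩
  obtain ⟨ι, hι⟩ : ∃ ι, 1 = ι * N := ⟨1 / N, by field_simp⟩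
  have θ0 : 0 ≤ θ := by by_contra hh; nlinarith
  have θ1 : θ ≤ 1 / 200 := by by_contra hh; nlinarith
  have ι0 : 0 ≤ ι := by by_contra hh; nlinarith
  have ι1 : ι ≤ 1 / 4000 := by by_contra hh; nlinarith
  have r1 : r = 60 * θ + 1381 * ι := by
    rw [hr, div_eq_iff hN0.ne']; push_cast; nlinarith
  have r2 : (70 * k + 1400) / N = 70 * θ + 1400 * ι := by
    rw [div_eq_iff hN0.ne']; nlinarith
  have v1 : b ≤ (1 + r) * a := by nlinarith
  have v2 : (1 - 2 * θ) * a ≤ (1 + r) * b := by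
    refine le_of_mul_le_mul_right ?_ hN0
    rw [hθ] at u2
    linarith
  rw [r2, abs_le]
  set t := 70 * θ + 1400 * ι with ht
  constructor
  · have w1 : (1 - t) * (1 + r) ≤ 1 := by nlinarith
    have w2 : (1 - t) * b ≤ (1 - t) * ((1 + r) * a) :=
      mul_le_mul_of_nonneg_left v1 (by linarith)
    nlinarith
  · have w1 : 1 + r ≤ (1 - 2 * θ) * (1 + t) := by nlinarith
    have w2 : (1 - 2 * θ) * a ≤ (1 - 2 * θ) * ((1 + t) * b) := by nlinarith
    have := le_of_mul_le_mul_left w2 (by linarith)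
    linarith

lemma pn_close (h : Good Y) (hp : Pos Y δ) (k : ℕ) : 200 * (k + 1) ≤ Fintype.card V →
    ∀ R C : Finset V, R.card = C.card → C.card + k = Fintype.card V →
      |pn Y R C - 1| ≤ Real.exp ((35 * k ^ 2 + 1400 * k) / Fintype.card V) - 1 := by
  induction k with
  | zero =>
    intro _ R C hR hC
    rw [(card_eq_iff_eq_univ C).1 hC, (card_eq_iff_eq_univ R).1 (by omega), pn_univ h hp]
    simp
  | succ k ih =>
    intro hk R C hR hC
    obtain ⟨R', C', u, hu, v, hv, rfl, rfl, a1, a2⟩ := exists_up hR hC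
    have b1 := pn_step h hp (by omega) a1 a2 hu hv
    have b2 := ih (by omega) R' C' a1 a2
    set t := (70 * (k : ℝ) + 1400) / Fintype.card V with ht
    set E := Real.exp ((35 * k ^ 2 + 1400 * k) / Fintype.card V) with hE
    have t0 : 0 ≤ t := by positivity
    have b3 : E * (1 + t) ≤ Real.exp ((35 * ((k + 1 : ℕ) : ℝ) ^ 2 + 1400 * (k + 1 : ℕ)) /
        Fintype.card V) := by
      refine (mul_le_mul_of_nonneg_left (show 1 + t ≤ Real.exp t by
        linarith [Real.add_one_le_exp t]) (Real.exp_pos _).le).trans ?_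
      rw [← Real.exp_add, ht, ← add_div]
      exact Real.exp_le_exp.2 (div_le_div_of_nonneg_right (by push_cast; nlinarith)
        (by positivity))
    have b4 := mul_le_mul_of_nonneg_left (show pn Y R' C' ≤ E by linarith [(abs_le.1 b2).2]) t0
    have := abs_sub_le (pn Y (R'.erase u) (C'.erase v)) (pn Y R' C') 1
    linarith

end Pool.Agent.P.MP_012ca0_co.Ev
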