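import Pool.Agent.P.MP_012ca0_co.Ev.Ans

/-! Second order estimate of the first minors. -/

set_option autoImplicit false
set_option linter.unusedSectionVars false

open Finset

noncomputable section

namespace Pool.Agent.P.MP_012ca0_co.Ev

variable {V : Type} [Fintype V] [DecidableEq V] {Y α φ ψ : V → V → ℝ} {a b : V → ℝ}

/-- the quadratic correction -/
def qq (α φ ψ : V → V → ℝ) (a b : V → ℝ) (I J : Finset V) : ℝ :=
  ∑ i ∈ I, ∑ j ∈ J, α i j + (∑ i ∈ I, ∑ i' ∈ I, φ i i') / 2 + (∑ j ∈ J, ∑ j' ∈ J, ψ j j') / 2 +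
    ∑ i ∈ I, (a i - φ i i / 2) + ∑ j ∈ J, (b j - ψ j j / 2)

/-- its increment -/
def dq (α φ ψ : V → V → ℝ) (a b : V → ℝ) (I J : Finset V) (u v : V) : ℝ :=
  ∑ j ∈ J, α u j + ∑ i ∈ I, α i v + ∑ i ∈ I, φ u i + ∑ j ∈ J, ψ v j + (α u v + a u + b v)

lemma qq_insert (H : Sol Y α φ ψ a b) {I J : Finset V} {u v : V} (hu : u ∉ I) (hv : v ∉ J) :
    qq α φ ψ a b (insert u I) (insert v J) = qq α φ ψ a b I J + dq α φ ψ a b I J u v := by
  simp only [qq, dq, sum_insert hu, sum_insert hv, sum_add_distrib]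
  rw [sum_congr rfl fun i (_ : i ∈ I) => H.sφ i u, sum_congr rfl fun j (_ : j ∈ J) => H.sψ j v]
  ring

lemma abs_sum_le {f : V → ℝ} {c : ℝ} (h : ∀ x, |f x| ≤ c) (I : Finset V) :
    |∑ x ∈ I, f x| ≤ c * I.card :=
  (abs_sum_le_sum_abs _ _).trans ((sum_le_sum fun x _ => h x).trans (by simp [mul_comm]))

lemma qq_bound (H : Sol Y α φ ψ a b) {I J : Finset V} {k : ℕ} (hI : I.card = k) (hJ : J.card = k) :
    |qq α φ ψ a b I J| ≤ 71 * k ^ 2 := by
  have a1 := abs_le.1 (abs_sum_le (fun i => abs_sum_le (H.bα i) J) I)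
  have a2 := abs_le.1 (abs_sum_le (fun i => abs_sum_le (H.bφ i) I) I)
  have a3 := abs_le.1 (abs_sum_le (fun i => abs_sum_le (H.bψ i) J) J)
  have a4 := abs_le.1 (abs_sum_le (f := fun i => a i - φ i i / 2) (c := 32) (fun i => by
    have := abs_le.1 (H.ba i)
    have := abs_le.1 (H.bφ i i)
    rw [abs_le]; constructor <;> linarith) I)
  have a5 := abs_le.1 (abs_sum_le (f := fun i => b i - ψ i i / 2) (c := 32) (fun i => by
    have := abs_le.1 (H.bb i)
    have := abs_le.1 (H.bψ i i)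
    rw [abs_le]; constructor <;> linarith) J)
  rw [hI] at a1 a2 a4
  rw [hJ] at a1 a3 a5
  have : (k : ℝ) ≤ k ^ 2 := by exact_mod_cast Nat.le_self_pow two_ne_zero k
  rw [qq, abs_le]
  constructor <;> nlinarith [a1.1, a1.2, a2.1, a2.2, a3.1, a3.2, a4.1, a4.2, a5.1, a5.2]

lemma dq_bound (H : Sol Y α φ ψ a b) {I J : Finset V} {k : ℕ} (hI : I.card = k) (hJ : J.card = k)
    (u v : V) : |dq α φ ψ a b I J u v| ≤ 14 * k + 63 := by
  have a1 := abs_le.1 (abs_sum_le (H.bα u) J)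
  have a2 := abs_le.1 (abs_sum_le (fun i => H.bα i v) I)
  have a3 := abs_le.1 (abs_sum_le (H.bφ u) I)
  have a4 := abs_le.1 (abs_sum_le (H.bψ v) J)
  have a5 := abs_le.1 (H.bα u v)
  have a6 := abs_le.1 (H.ba u)
  have a7 := abs_le.1 (H.bb v)
  rw [hI] at a2 a3
  rw [hJ] at a1 a4
  rw [dq, abs_le]
  constructor <;> linarith [a1.1, a1.2, a2.1, a2.2, a3.1, a3.2, a4.1, a4.2, a5.1, a5.2, a6.1, a6.2,
    a7.1, a7.2]

lemma dq_row (h : Good Y) (H : Sol Y α φ ψ a b) {I J : Finset V} (hI : I.card = J.card) (u : V) :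
    ∑ v, (1 + Y u v) * dq α φ ψ a b I J u v = Fintype.card V * ∑ j ∈ J, (1 + Y u j) := by
  have m : ∑ v, (1 + Y u v) = Fintype.card V := by simp [sum_add_distrib, h.row]
  have e1 := sum_congr rfl fun j (_ : j ∈ J) => H.eJ u j
  have e2 := sum_congr rfl fun i (_ : i ∈ I) => H.eI u i
  have e3 := H.eO u
  rw [sum_add_distrib, sum_comm, ← mul_sum, ← mul_sum] at e1 e2
  have e4 : ∀ v, (1 + Y u v) * dq α φ ψ a b I J u v =
      (1 + Y u v) * (∑ j ∈ J, α u j + ∑ i ∈ I, φ u i + a u) + ∑ i ∈ I, (1 + Y u v) * α i v +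
        ∑ j ∈ J, (1 + Y u v) * ψ v j + (1 + Y u v) * (α u v + b v) := fun v => by
    rw [dq, ← mul_sum, ← mul_sum]; ring
  simp only [e4, sum_add_distrib, ← sum_mul, m, sum_const, nsmul_eq_mul, hI] at e1 e2 ⊢
  linarith

lemma dq_col (h : Good Y) (H : Sol Y α φ ψ a b) {I J : Finset V} (hI : I.card = J.card) (v : V) :
    ∑ u, (1 + Y u v) * dq α φ ψ a b I J u v = Fintype.card V * ∑ i ∈ I, (1 + Y i v) := by
  have m : ∑ u, (1 + Y u v) = Fintype.card V := by simp [sum_add_distrib, h.col]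
  have e1 := sum_congr rfl fun i (_ : i ∈ I) => H.cI v i
  have e2 := sum_congr rfl fun j (_ : j ∈ J) => H.cJ v j
  have e3 := H.cO v
  rw [sum_add_distrib, sum_comm, ← mul_sum, ← mul_sum] at e1 e2
  have e4 : ∀ u, (1 + Y u v) * dq α φ ψ a b I J u v =
      (1 + Y u v) * (∑ i ∈ I, α i v + ∑ j ∈ J, ψ v j + b v) + ∑ j ∈ J, (1 + Y u v) * α u j +
        ∑ i ∈ I, (1 + Y u v) * φ u i + (1 + Y u v) * (α u v + a u) := fun u => by
    rw [dq, ← mul_sum, ← mul_sum]; ring
  simp only [e4, sum_add_distrib, ← sum_mul, m, sum_const, nsmul_eq_mul, hI] at e1 e2 ⊢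
  linarith

lemma rel_aux {A D : V → ℝ} {q N B : ℝ} (hN : 0 < N) (C : Finset V) (m : ∑ v, A v = N)
    (hA : ∀ v, |A v| ≤ 2) (hD : ∀ v, |q + D v| ≤ B) (e : ∑ v, A v * D v = N * ∑ j ∈ Cᶜ, A j) :
    |N * (1 + q / N) - ∑ v ∈ C, A v * (1 + (q + D v) / N)| ≤ 2 * B * Cᶜ.card / N := by
  have e1 := sum_add_sum_compl C A
  have e2 := sum_add_sum_compl C fun v => A v * (q + D v)
  have e3 : ∑ v, A v * (q + D v) = N * q + N * ∑ j ∈ Cᶜ, A j := by
    simp only [mul_add, sum_add_distrib, ← sum_mul, m, e]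
  have e4 : ∑ v ∈ C, A v * (1 + (q + D v) / N) =
      ∑ v ∈ C, A v + (∑ v ∈ C, A v * (q + D v)) / N := by
    rw [sum_div, ← sum_add_distrib]
    exact sum_congr rfl fun v _ => by ring
  have e5 : N * (1 + q / N) - ∑ v ∈ C, A v * (1 + (q + D v) / N) =
      (∑ v ∈ Cᶜ, A v * (q + D v)) / N := by
    rw [e4]
    field_simp
    linear_combination (-N) * e1 - e2 - e3 - N * m
  rw [e5, abs_div, abs_of_pos hN]
  refine div_le_div_of_nonneg_right (abs_sum_le (fun v => ?_) _) hN.le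
  rw [abs_mul]
  exact mul_le_mul (hA v) (hD v) (abs_nonneg _) (by norm_num)

lemma rel_err (h : Good Y) (H : Sol Y α φ ψ a b) (T : ℕ) :
    Rel Y (fun R C => pn Y R C - (1 + qq α φ ψ a b Rᶜ Cᶜ / Fintype.card V)) T
      (142 * T ^ 3 / (Fintype.card V : ℝ) ^ 2) := by
  have A2 : ∀ u v, |1 + Y u v| ≤ 2 := fun u v => by
    rw [abs_of_nonneg (h.nonneg u v)]; exact h.le_two u v
  have B : ∀ (R C : Finset V) (k : ℕ), R.card = C.card → C.card + k = Fintype.card V → k < T →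
      ∀ u v, |qq α φ ψ a b Rᶜ Cᶜ + dq α φ ψ a b Rᶜ Cᶜ u v| ≤ 71 * T ^ 2 := by
    intro R C k hR hC hk u v
    have c1 : Rᶜ.card = k := by rw [card_compl]; omega
    have c2 : Cᶜ.card = k := by rw [card_compl]; omega
    have : (k : ℝ) + 1 ≤ T := by exact_mod_cast hk
    have k0 : (0 : ℝ) ≤ k := by positivity
    refine (abs_add_le _ _).trans ?_
    nlinarith [qq_bound H c1 c2, dq_bound H c1 c2 u v]
  have fin : ∀ k : ℕ, k < T → (0 : ℝ) < Fintype.card V → 2 * (71 * (T : ℝ) ^ 2) * k /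
      Fintype.card V ≤ Fintype.card V * (142 * T ^ 3 / (Fintype.card V : ℝ) ^ 2) := by
    intro k hk hN
    have : (k : ℝ) ≤ T := by exact_mod_cast hk.le
    calc _ ≤ 2 * (71 * (T : ℝ) ^ 2) * T / Fintype.card V := by gcongr
      _ = _ := by field_simp; ring
  constructor
  · intro R C k hR hC hk u hu
    have hN : (0 : ℝ) < Fintype.card V := by exact_mod_cast Fintype.card_pos_iff.2 ⟨u⟩
    have e := pn_row (Y := Y) (C := C) hu
    rw [eq_div_iff hN.ne'] at e
    have a1 := rel_aux hN C (A := fun v => 1 + Y u v) (by simp [sum_add_distrib, h.row]) (A2 u)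
      (B R C k hR hC hk u) (dq_row h H (by rw [card_compl, card_compl, hR]) u)
    rw [card_compl_real hC] at a1
    refine le_trans (le_of_eq ?_) (a1.trans (fin k hk hN))
    rw [abs_sub_comm]
    congr 1
    simp only [mul_sub, sum_sub_distrib, ← e]
    rw [sum_congr rfl fun v (hv : v ∈ C) => by
      rw [compl_erase, compl_erase, qq_insert H (by simpa using hu) (by simpa using hv)]]
    ring
  · intro R C k hR hC hk v hv
    have hN : (0 : ℝ) < Fintype.card V := by exact_mod_cast Fintype.card_pos_iff.2 ⟨v⟩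
    have e := pn_col (Y := Y) (R := R) hv
    rw [eq_div_iff hN.ne'] at e
    have a1 := rel_aux hN R (A := fun u => 1 + Y u v) (by simp [sum_add_distrib, h.col])
      (fun u => A2 u v) (fun u => B R C k hR hC hk u v)
      (dq_col h H (by rw [card_compl, card_compl, hR]) v)
    rw [card_compl_real (k := k) (by omega)] at a1
    refine le_trans (le_of_eq ?_) (a1.trans (fin k hk hN))
    rw [abs_sub_comm]
    congr 1
    simp only [mul_sub, sum_sub_distrib, ← e]
    rw [sum_congr rfl fun u (hu : u ∈ R) => by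
      rw [compl_erase, compl_erase, qq_insert H (by simpa using hu) (by simpa using hv)]]
    ring

lemma second_order (h : Good Y) {δ : ℝ} (hp : Pos Y δ) (H : Sol Y α φ ψ a b) {j : ℕ}
    (h1 : (0.9 : ℝ) ^ j ≤ 1 / (Fintype.card V : ℝ) ^ 2)
    (h2 : 3000 * (4 * j + 1) ^ 3 ≤ Fintype.card V) (u v : V) :
    |pn Y (univ.erase u) (univ.erase v) - (1 + (α u v + a u + b v) / Fintype.card V)| ≤
      400000 * (4 * j + 1) ^ 3 / (Fintype.card V : ℝ) ^ 2 := by
  set T := 4 * j + 1 with hT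
  have T1 : 1 ≤ T := by omega
  have T3 : T ≤ T ^ 3 := Nat.le_self_pow (by norm_num) T
  have R1 := rel_err h H T
  set e := fun R C => pn Y R C - (1 + qq α φ ψ a b Rᶜ Cᶜ / Fintype.card V) with he
  set N : ℝ := (Fintype.card V : ℝ) with hN
  have h3 : 3000 * (T : ℝ) ^ 3 ≤ N := by rw [hN]; exact_mod_cast h2
  have T1' : (1 : ℝ) ≤ T := by exact_mod_cast T1
  have T2 : (T : ℝ) ≤ T ^ 2 := by nlinarith
  have T23 : (T : ℝ) ^ 2 ≤ T ^ 3 := by nlinarith
  have hN0 : 0 < N := by nlinarith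
  have e0 : e univ univ = 0 := by simp [he, qq, pn_univ h hp]
  have B1 : Bd e T 2 := by
    intro R C k hR hC hk
    have kT : (k : ℝ) ≤ T := by exact_mod_cast hk
    have k0 : (0 : ℝ) ≤ k := by positivity
    have k2 : (k : ℝ) ^ 2 ≤ T ^ 2 := by gcongr
    have a1 := pn_close h hp k (by omega) R C hR hC
    have a2 := qq_bound H (I := Rᶜ) (J := Cᶜ) (k := k) (by rw [card_compl]; omega)
      (by rw [card_compl]; omega)
    have a3 : Real.exp ((35 * k ^ 2 + 1400 * k) / N) ≤ 2 := by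
      have : (35 * k ^ 2 + 1400 * k) / N ≤ Real.log 2 := by
        rw [div_le_iff₀ hN0]
        nlinarith [Real.log_two_gt_d9]
      exact (Real.exp_le_exp.2 this).trans (by rw [Real.exp_log two_pos])
    have a4 : |qq α φ ψ a b Rᶜ Cᶜ / N| ≤ 1 := by
      rw [abs_div, abs_of_pos hN0, div_le_one hN0]
      linarith
    obtain ⟨p1, p2⟩ := abs_le.1 a1
    obtain ⟨p3, p4⟩ := abs_le.1 a4
    rw [abs_le]
    constructor <;> simp only [he] <;> linarith
  have η0 : (0 : ℝ) ≤ 142 * T ^ 3 / N ^ 2 := by positivity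
  have B2 : Bd e (2 * j + 1) (6000 * T ^ 2 / N) := by
    intro R C k hR hC hk
    refine (stab h R1 B1 η0 (by norm_num) (by omega) e0 (L := 2 * j + 1) (j := j) (by omega)
      R C k hR hC hk).trans ?_
    have a1 : ((2 * j + 1 : ℕ) : ℝ) ≤ T := by exact_mod_cast (by omega : 2 * j + 1 ≤ T)
    calc _ ≤ T * (1 / N ^ 2 * (2 * 2) + 62 * T * 2 / N + 41 * (142 * T ^ 3 / N ^ 2)) := by
          gcongr
      _ = T * ((4 + 5822 * T ^ 3) / N + 124 * T) / N := by field_simp; ring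
      _ ≤ T * (5876 * T + 124 * T) / N := by
          gcongr
          rw [div_le_iff₀ hN0]
          nlinarith
      _ = _ := by ring
  have B3 := stab h (R1.mono (show 2 * j + 1 ≤ T by omega)) B2 η0 (by positivity) (by omega) e0
    (L := 1) (j := j) (by omega) (univ.erase u) (univ.erase v) 1
    (by rw [card_erase_of_mem (mem_univ _), card_erase_of_mem (mem_univ _)])
    (by rw [card_erase_add_one (mem_univ _), card_univ]) le_rfl
  have q1 : qq α φ ψ a b (univ.erase u)ᶜ (univ.erase v)ᶜ = α u v + a u + b v := by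
    simp [qq, compl_erase]; ring
  simp only [he, q1] at B3
  refine B3.trans ?_
  have a1 : ((2 * j + 1 : ℕ) : ℝ) ≤ T := by exact_mod_cast (by omega : 2 * j + 1 ≤ T)
  have a2 : (4 * j + 1 : ℝ) = T := by rw [hT]; push_cast; ring
  rw [a2, Nat.cast_one, one_mul]
  calc _ ≤ 1 / N ^ 2 * (2 * (6000 * T ^ 2 / N)) + 62 * T * (6000 * T ^ 2 / N) / N +
        41 * (142 * T ^ 3 / N ^ 2) := by gcongr
    _ = (12000 * T ^ 2 / N + 377822 * T ^ 3) / N ^ 2 := by field_simp; ring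
    _ ≤ _ := by
        gcongr
        have : 12000 * (T : ℝ) ^ 2 / N ≤ 12000 * T ^ 2 :=
          div_le_self (by positivity) (by nlinarith)
        linarith

end Pool.Agent.P.MP_012ca0_co.Ev
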