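import Pool.Agent.P.MP_012ca0_co.Ev.Tour

/-! Upper bounds on the main term, and Paley tournaments. -/

set_option autoImplicit false
set_option linter.unusedSectionVars false

open Finset

noncomputable section

namespace Pool.Agent.P.MP_012ca0_co.Ev

section
variable {V : Type} [Fintype V] [DecidableEq V] {Y : V → V → ℝ} {l : V → ℝ}

lemma Spec.LL_le (h : Good Y) (hs : Spec Y l) {c : ℝ}
    (hc : ∀ i, 1 / 2 * Real.log ((1 + l i) / (1 - l i)) ≤ l i + c * l i ^ 2) :
    LL l 1 ≤ 1 + c * ∑ i, l i ^ 2 := by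
  rw [LL, ← sub_div, ← sum_sub_distrib, sum_div]
  refine le_trans (sum_le_sum fun i _ => (?_ : _ ≤ l i + c * l i ^ 2)) ?_
  · have a := hs.nonneg i
    have b := hs.le i
    have := hc i
    rw [Real.log_div (by linarith) (by linarith)] at this
    simp only [one_pow, one_mul]
    linarith
  · rw [sum_add_distrib, ← mul_sum]
    linarith [hs.sum_le h]

lemma Spec.LL_le_one (h : Good Y) (hs : Spec Y l) : LL l 1 ≤ 1 + ∑ i, l i ^ 2 := by
  have := hs.LL_le h (c := 1) fun i => by
    have a := hs.nonneg i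
    have b := hs.le i
    refine (Real.log_div_le_sum_range_add a (by linarith) 1).trans ?_
    have : l i ^ 3 / (1 - l i ^ 2) ≤ l i ^ 2 := by
      rw [div_le_iff₀ (by nlinarith)]
      nlinarith [mul_nonneg (sq_nonneg (l i)) (show 0 ≤ 1 - l i ^ 2 - l i by nlinarith)]
    simpa using this
  simpa using this

lemma Good.four (h : Good Y) :
    ∑ u, ∑ v, (∑ w, Y u w * Y v w) ^ 2 ≤ (Fintype.card V : ℝ) ^ 4 / 3 := by
  set F : V → V → V → V → ℝ := fun u v w x => Y u w * Y v w * (Y u x * Y v x) with hF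
  have e1 : ∑ u, ∑ v, (∑ w, Y u w * Y v w) ^ 2 = ∑ u, ∑ v, ∑ w, ∑ x, F u v w x := by
    simp only [sq, sum_mul_sum, hF]
  have e2 : ∑ u, ∑ v, ∑ w, ∑ x, F u v w x = ∑ u, ∑ v, ∑ w, ∑ x, F u w v x :=
    sum_congr rfl fun u _ => sum_comm
  have e3 : ∑ u, ∑ v, ∑ w, ∑ x, F u v w x = ∑ u, ∑ v, ∑ w, ∑ x, F u x v w :=
    sum_congr rfl fun u _ => sum_comm.trans (sum_congr rfl fun v _ => sum_comm)
  have e4 : ∑ u, ∑ v, ∑ w, ∑ x, (F u v w x + F u w v x + F u x v w) ≤
      ∑ _u : V, ∑ _v : V, ∑ _w : V, ∑ _x : V, (1 : ℝ) := by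
    refine sum_le_sum fun u _ => sum_le_sum fun v _ => sum_le_sum fun w _ =>
      sum_le_sum fun x _ => ?_
    have m : ∀ a b c d, |Y a b * Y c d| ≤ 1 := fun a b c d => by
      rw [abs_mul]; exact mul_le_one₀ (h.bd _ _) (abs_nonneg _) (h.bd _ _)
    obtain ⟨a1, a2⟩ := abs_le.1 (m u v w x)
    obtain ⟨b1, b2⟩ := abs_le.1 (m u w v x)
    obtain ⟨c1, c2⟩ := abs_le.1 (m u x v w)
    simp only [hF]
    rw [h.skew v w, h.skew v x, h.skew w x]
    nlinarith [mul_nonneg (mul_nonneg (sub_nonneg.2 b2) (neg_le_iff_add_nonneg.1 a1))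
      (neg_le_iff_add_nonneg.1 c1), mul_nonneg (mul_nonneg (neg_le_iff_add_nonneg.1 b1)
      (sub_nonneg.2 a2)) (sub_nonneg.2 c2)]
  simp only [sum_add_distrib, sum_const, card_univ, nsmul_eq_mul] at e4
  rw [e1]
  linarith

lemma Spec.exp_LL_lt (h : Good Y) (hs : Spec Y l) : Real.exp (LL l 1) ≤ 2.8596 := by
  have s : ∑ i, l i ^ 2 ≤ 1 / 3 := by
    rw [hs.sumsq]
    refine div_le_of_le_mul₀ (by positivity) (by norm_num) (h.four.trans (le_of_eq (by ring)))
  have := hs.LL_le h (c := 0.152) fun i => by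
    have a := hs.nonneg i
    have b : l i ^ 2 ≤ 1 / 6 := by linarith [hs.twice i]
    have c : l i ≤ 0.4083 := by nlinarith
    refine (Real.log_div_le_sum_range_add a (by linarith) 5).trans ?_
    have p : ∀ k : ℕ, l i ^ (k + 2) ≤ 0.4083 ^ k * l i ^ 2 := fun k => by
      rw [pow_add]; gcongr
    have q : l i ^ 11 / (1 - l i ^ 2) ≤ 6 / 5 * l i ^ 11 := by
      rw [div_le_iff₀ (by linarith)]
      nlinarith [pow_nonneg a 11]
    have := p 1
    have := p 3
    have := p 5
    have := p 7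
    have := p 9
    simp only [sum_range_succ, sum_range_zero]
    norm_num at *
    nlinarith [sq_nonneg (l i)]
  refine (Real.exp_le_exp.2 (this.trans (show _ ≤ 1 + 0.152 / 3 by linarith))).trans ?_
  rw [Real.exp_add]
  have e := Real.exp_bound' (x := 0.152 / 3) (by norm_num) (by norm_num) (n := 3) (by norm_num)
  simp only [sum_range_succ, sum_range_zero, Nat.factorial] at e
  refine (mul_le_mul Real.exp_one_lt_d9.le e (Real.exp_pos _).le (by norm_num)).trans ?_
  norm_num

end

lemma paley (p : ℕ) (hp : p.Prime) (h3 : p % 4 = 3) : ∃ (adj : Fin p → Fin p → Prop)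
    (S : Fin p → Fin p → ℝ), Tour adj S ∧ ∑ u, ∑ v, (∑ w, S u w * S v w) ^ 2 ≤ 2 * (p : ℝ) ^ 3 := by
  classical
  have := Fact.mk hp
  have c : ringChar (ZMod p) ≠ 2 := by rw [ZMod.ringChar_zmod_n]; omega
  set χ := quadraticChar (ZMod p) with hχ
  have m : χ (-1) = -1 := by
    rw [hχ, quadraticChar_neg_one c, ZMod.card, ZMod.χ₄_nat_three_mod_four h3]
  have sk : ∀ a b, χ (a - b) = -χ (b - a) := fun a b => by
    rw [← neg_sub b a, ← neg_one_mul, map_mul, m]; ring
  have J : ∑ x, χ x * χ (1 - x) = 1 := by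
    have := jacobiSum_nontrivial_inv (quadraticChar_ne_one c)
    rw [(quadraticChar_isQuadratic (ZMod p)).inv, ← hχ, m] at this
    simpa [jacobiSum] using this
  have K : ∀ u v, u ≠ v → ∑ w, χ (w - u) * χ (w - v) = -1 := fun u v e => by
    have d : v - u ≠ 0 := sub_ne_zero.2 e.symm
    rw [← J, ← sum_neg_distrib, ← Equiv.sum_comp ((Equiv.mulLeft₀ (v - u) d).trans
      (Equiv.addRight u))]
    refine sum_congr rfl fun x _ => ?_
    simp only [Equiv.trans_apply, Equiv.mulLeft₀_apply, Equiv.coe_addRight, add_sub_cancel_right]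
    rw [show (v - u) * x + u - v = (v - u) * (x - 1) by ring, map_mul, map_mul, sk x 1]
    linear_combination (-(χ x * χ (1 - x))) * quadraticChar_sq_one d
  have z : χ 0 = 0 := MulChar.map_zero χ
  set f := (ZMod.finEquiv p).toEquiv with hf
  have tot : ∀ v w : Fin p, v ≠ w → (χ (f w - f v) = 1 ↔ ¬ χ (f v - f w) = 1) := fun v w e => by
    rw [sk (f v)]
    rcases quadraticChar_dichotomy (sub_ne_zero.2 (f.injective.ne e.symm)) with g | g <;>
      simp only [← hχ] at g <;> simp [g]
  refine ⟨fun v w => χ (f w - f v) = 1, fun v w => (χ (f w - f v) : ℝ),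
    ⟨Nat.odd_iff.2 (by omega), fun v => by simp [z], tot, fun v => ?_, fun v => by simp [z],
      fun v w g => by rw [sk (f v), g]; simp⟩, ?_⟩
  · have a : ∑ w, χ (f w - f v) = 0 := by
      rw [← quadraticChar_sum_zero c]
      exact Equiv.sum_comp (f.trans (Equiv.subRight (f v))) χ
    have b : ∀ w, χ (f w - f v) =
        2 * (if χ (f w - f v) = 1 then 1 else 0) - 1 + if v = w then 1 else 0 := fun w => by
      by_cases e : v = w
      · simp [e, z]
      · rcases quadraticChar_dichotomy (sub_ne_zero.2 (f.injective.ne (Ne.symm e))) with g | g <;>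
          simp only [← hχ] at g <;> simp [g, e]
    rw [sum_congr rfl fun w _ => b w] at a
    simp only [sum_add_distrib, sum_sub_distrib, ← mul_sum, sum_ite_eq] at a
    rw [sum_boole] at a
    rw [Set.ncard_eq_toFinset_card', Set.toFinset_ofPred]
    simp only [sum_const, card_univ, Fintype.card_fin, nsmul_eq_mul, mem_univ, if_true] at a
    omega
  · have hN : (1 : ℝ) ≤ p := by exact_mod_cast hp.one_lt.le
    have b : ∀ u v : Fin p, (∑ w, (χ (f w - f u) : ℝ) * (χ (f w - f v) : ℝ)) ^ 2 ≤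
        1 + if u = v then (p : ℝ) ^ 2 else 0 := fun u v => by
      split_ifs with e
      · have : |∑ w, (χ (f w - f u) : ℝ) * (χ (f w - f v) : ℝ)| ≤ p := by
          refine (abs_sum_le_sum_abs _ _).trans ((sum_le_sum fun w _ =>
            (?_ : _ ≤ (1 : ℝ))).trans (by simp))
          rcases quadraticChar_isQuadratic (ZMod p) (f w - f v) with g | g | g <;>
            simp only [← hχ] at g <;> simp [e, g]
        have := sq_le_sq' (abs_le.1 this).1 (abs_le.1 this).2
        linarith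
      · have := K (f u) (f v) (f.injective.ne e)
        rw [← Equiv.sum_comp f] at this
        have : ∑ w, (χ (f w - f u) : ℝ) * (χ (f w - f v) : ℝ) = -1 := by exact_mod_cast this
        rw [this]; norm_num
    refine (sum_le_sum fun u _ => sum_le_sum fun v _ => b u v).trans ?_
    simp only [sum_add_distrib, sum_ite_eq, mem_univ, if_true, sum_const, card_univ,
      Fintype.card_fin, nsmul_eq_mul]
    nlinarith

end Pool.Agent.P.MP_012ca0_co.Ev
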