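import Pool.Agent.P.MP_012ca0_co.Ev.Ratio

/-! Stability of the Laplace recursion. -/

set_option autoImplicit false
set_option linter.unusedSectionVars false

open Finset

noncomputable section

namespace Pool.Agent.P.MP_012ca0_co.Ev

variable {V : Type} [Fintype V] [DecidableEq V] {Y : V → V → ℝ}

/-- approximate solutions of the Laplace recursion up to level `T` -/
structure Rel (Y : V → V → ℝ) (e : Finset V → Finset V → ℝ) (T : ℕ) (η : ℝ) : Prop where
  row : ∀ (R C : Finset V) (k : ℕ), R.card = C.card → C.card + k = Fintype.card V → k < T →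
    ∀ u ∈ R, |Fintype.card V * e R C - ∑ v ∈ C, (1 + Y u v) * e (R.erase u) (C.erase v)| ≤
      Fintype.card V * η
  col : ∀ (R C : Finset V) (k : ℕ), R.card = C.card → C.card + k = Fintype.card V → k < T →
    ∀ v ∈ C, |Fintype.card V * e R C - ∑ u ∈ R, (1 + Y u v) * e (R.erase u) (C.erase v)| ≤
      Fintype.card V * η

/-- a bound up to level `T` -/
def Bd (e : Finset V → Finset V → ℝ) (T : ℕ) (M : ℝ) : Prop :=
  ∀ (R C : Finset V) (k : ℕ), R.card = C.card → C.card + k = Fintype.card V → k ≤ T → |e R C| ≤ M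

/-- oscillation bound for exchanging a deleted row at level `k` -/
def RowO (e : Finset V → Finset V → ℝ) (k : ℕ) (o : ℝ) : Prop :=
  ∀ R C : Finset V, C.card + k = Fintype.card V → R.card = C.card + 1 → ∀ u ∈ R, ∀ u' ∈ R,
    e (R.erase u) C - e (R.erase u') C ≤ o

variable {e : Finset V → Finset V → ℝ} {T : ℕ} {η M : ℝ}

lemma Rel.mono (H : Rel Y e T η) {T' : ℕ} (h : T' ≤ T) : Rel Y e T' η :=
  ⟨fun R C k a b c => H.row R C k a b (by omega), fun R C k a b c => H.col R C k a b (by omega)⟩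

lemma rowO_step (h : Good Y) (H : Rel Y e T η) (B : Bd e T M) (hη : 0 ≤ η) (hM : 0 ≤ M)
    (hT : 100 * T ≤ Fintype.card V) {k : ℕ} (hk : k + 2 ≤ T) {o : ℝ} (ho : 0 ≤ o)
    (O : RowO e (k + 2) o) : RowO e k (0.9 * o + 6 * T * M / Fintype.card V + 4 * η) := by
  intro R C hC hR u hu u' hu'
  set N : ℝ := (Fintype.card V : ℝ) with hN
  have hTN : 100 * (T : ℝ) ≤ N := by rw [hN]; exact_mod_cast hT
  have hkT : (k : ℝ) + 2 ≤ T := by exact_mod_cast hk
  have k0 : (0 : ℝ) ≤ k := by positivity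
  have hN0 : 0 < N := by linarith
  by_cases eq : u = u'
  · subst eq
    rw [sub_self]
    positivity
  have hu1 : u' ∈ R.erase u := mem_erase.2 ⟨Ne.symm eq, hu'⟩
  have f1 := (abs_le.1 (H.row (R.erase u) C k (by rw [card_erase_of_mem hu]; omega) hC (by omega)
    u' hu1)).2
  have f2 := (abs_le.1 (H.row (R.erase u') C k (by rw [card_erase_of_mem hu']; omega) hC (by omega)
    u (mem_erase.2 ⟨eq, hu⟩))).1
  rw [erase_right_comm (a := u') (b := u)] at f2
  rw [← hN] at f1 f2
  set R0 := (R.erase u).erase u' with hR0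
  have c0 : R0.card + 1 = C.card := by
    rw [hR0, card_erase_of_mem hu1, card_erase_of_mem hu]; omega
  have cR : (R0ᶜ.card : ℝ) = k + 1 := by
    rw [card_compl_real (k := k + 1) (by omega)]; push_cast; ring
  have cC : (Cᶜ.card : ℝ) = k := card_compl_real hC
  obtain ⟨w', hw', hmin⟩ := exists_min_image C (fun w => e R0 (C.erase w))
    (card_pos.1 (by omega))
  set m := e R0 (C.erase w') with hm
  have cw : ∀ w ∈ C, (C.erase w).card + 1 = C.card := fun w hw => card_erase_add_one hw
  have mM : |m| ≤ M := B R0 _ (k + 1) (by have := cw w' hw'; omega) (by have := cw w' hw'; omega)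
    (by omega)
  have key : ∀ w ∈ C, N * (e R0 (C.erase w) - m) ≤
      o * ((∑ x, |Y x w' - Y x w|) / 2 + (k + 1)) + 2 * (k + 1) * M + 2 * N * η := by
    intro w hw
    have D0 : 0 ≤ ∑ x, |Y x w' - Y x w| := sum_nonneg fun _ _ => abs_nonneg _
    by_cases ew : w = w'
    · subst ew
      rw [← hm, sub_self, mul_zero]
      positivity
    have hw1 : w' ∈ C.erase w := mem_erase.2 ⟨Ne.symm ew, hw'⟩
    have e1 := (abs_le.1 (H.col R0 (C.erase w) (k + 1) (by have := cw w hw; omega)
      (by have := cw w hw; omega) (by omega) w' hw1)).2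
    have e2 := (abs_le.1 (H.col R0 (C.erase w') (k + 1) (by have := cw w' hw'; omega)
      (by have := cw w' hw'; omega) (by omega) w (mem_erase.2 ⟨ew, hw⟩))).1
    rw [erase_right_comm (a := w') (b := w), ← hm] at e2
    rw [← hN] at e1 e2
    set C0 := (C.erase w).erase w' with hC0
    have c1 : C0.card + 2 = C.card := by
      rw [hC0, card_erase_of_mem hw1, card_erase_of_mem hw]; omega
    obtain ⟨x0, hx0, hx⟩ := exists_min_image R0 (fun x => e (R0.erase x) C0)
      (card_pos.1 (by omega))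
    set c := e (R0.erase x0) C0 with hc
    have c2 : |c| ≤ M := B _ C0 (k + 2) (by rw [card_erase_of_mem hx0]; omega) (by omega) hk
    have a1 := h.centre w w' R0 (ν := fun x => e (R0.erase x) C0) (c := c) ho hx fun x hx' => by
      have := O R0 C0 (by omega) (by omega) x hx' x0 hx0
      linarith
    rw [cR] at a1
    have a2 := mul_le_mul_of_nonneg_left c2 (show 0 ≤ 2 * ((k : ℝ) + 1) by positivity)
    linarith
  obtain ⟨m1, m2⟩ := h.mass_row u' C
  obtain ⟨m3, m4⟩ := h.mass_row u C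
  rw [cC] at m1 m3
  rw [← hN] at m1 m2 m3 m4
  have s1 : N * (∑ w ∈ C, (1 + Y u' w) * e R0 (C.erase w) - (∑ w ∈ C, (1 + Y u' w)) * m) ≤
      N * (o * (k + 1) + 2 * (k + 1) * M + 2 * N * η) + o / 2 * (1.72 * N ^ 2) := by
    rw [sum_mul, ← sum_sub_distrib, mul_sum]
    calc _ ≤ ∑ w ∈ C, (1 + Y u' w) *
          (o * ((∑ x, |Y x w' - Y x w|) / 2 + (k + 1)) + 2 * (k + 1) * M + 2 * N * η) :=
          sum_le_sum fun w hw => by
            have := mul_le_mul_of_nonneg_left (key w hw) (h.nonneg u' w)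
            linarith
      _ = (∑ w ∈ C, (1 + Y u' w)) * (o * (k + 1) + 2 * (k + 1) * M + 2 * N * η) +
            o / 2 * ∑ w ∈ C, (1 + Y u' w) * ∑ x, |Y x w' - Y x w| := by
          rw [sum_mul, mul_sum, ← sum_add_distrib]
          exact sum_congr rfl fun w _ => by ring
      _ ≤ _ := by
          have b2 : ∑ w ∈ C, (1 + Y u' w) * ∑ x, |Y x w' - Y x w| ≤ 1.72 * N ^ 2 :=
            (sum_le_sum_of_subset_of_nonneg (subset_univ _) fun w _ _ =>
              mul_nonneg (h.nonneg _ _) (sum_nonneg fun _ _ => abs_nonneg _)).trans (h.kl u' w')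
          gcongr
  have s1' : ∑ w ∈ C, (1 + Y u' w) * e R0 (C.erase w) - (∑ w ∈ C, (1 + Y u' w)) * m ≤
      o * (k + 1) + 2 * (k + 1) * M + 2 * N * η + 0.86 * o * N :=
    le_of_mul_le_mul_left (s1.trans (le_of_eq (by ring))) hN0
  have s2 : (∑ w ∈ C, (1 + Y u w)) * m ≤ ∑ w ∈ C, (1 + Y u w) * e R0 (C.erase w) := by
    rw [sum_mul]
    exact sum_le_sum fun w hw => mul_le_mul_of_nonneg_left (hmin w hw) (h.nonneg _ _)
  have s3 : (∑ w ∈ C, (1 + Y u' w) - ∑ w ∈ C, (1 + Y u w)) * m ≤ 2 * k * M := by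
    refine (le_abs_self _).trans ?_
    rw [abs_mul]
    exact mul_le_mul (abs_le.2 ⟨by linarith, by linarith⟩) mM (abs_nonneg _) (by positivity)
  have s4 : o * (k + 1) ≤ 0.04 * o * N := by nlinarith
  have s5 : (4 * k + 2) * M ≤ 6 * T * M := mul_le_mul_of_nonneg_right (by linarith) hM
  refine le_of_mul_le_mul_left ?_ hN0
  have : N * (0.9 * o + 6 * T * M / N + 4 * η) = 0.9 * o * N + 6 * T * M + 4 * N * η := by
    field_simp
  rw [this]
  nlinarith

lemma rowO_iter (h : Good Y) (H : Rel Y e T η) (B : Bd e T M) (hη : 0 ≤ η) (hM : 0 ≤ M)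
    (hT : 100 * T ≤ Fintype.card V) (j : ℕ) : ∀ k : ℕ, k + 2 * j ≤ T →
      RowO e k (0.9 ^ j * (2 * M) + 60 * T * M / Fintype.card V + 40 * η) := by
  have p : 0 ≤ T * M / Fintype.card V := by positivity
  induction j with
  | zero =>
    intro k hk R C hC hR u hu u' hu'
    have a := B (R.erase u) C k (by rw [card_erase_of_mem hu]; omega) hC hk
    have b := B (R.erase u') C k (by rw [card_erase_of_mem hu']; omega) hC hk
    rw [mul_assoc, mul_div_assoc]
    linarith [(abs_le.1 a).2, (abs_le.1 b).1]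
  | succ j ih =>
    intro k hk R C hC hR u hu u' hu'
    refine (rowO_step h H B hη hM hT (by omega) (by positivity) (ih (k + 2) (by omega))
      R C hC hR u hu u' hu').trans (le_of_eq ?_)
    ring

lemma stab (h : Good Y) (H : Rel Y e T η) (B : Bd e T M) (hη : 0 ≤ η) (hM : 0 ≤ M)
    (hT : 100 * T ≤ Fintype.card V) (h0 : e univ univ = 0) {L j : ℕ} (hL : L + 2 * j ≤ T) :
    Bd e L (L * (0.9 ^ j * (2 * M) + 62 * T * M / Fintype.card V + 41 * η)) := by
  set g := 0.9 ^ j * (2 * M) + 62 * T * M / Fintype.card V + 41 * η with hg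
  have g0 : 0 ≤ g := by positivity
  suffices ∀ k ≤ L, ∀ R C : Finset V, R.card = C.card → C.card + k = Fintype.card V →
      |e R C| ≤ k * g from fun R C k a b c =>
    (this k c R C a b).trans (mul_le_mul_of_nonneg_right (by exact_mod_cast c) g0)
  intro k
  induction k with
  | zero =>
    intro _ R C hR hC
    rw [(card_eq_iff_eq_univ C).1 hC, (card_eq_iff_eq_univ R).1 (by omega), h0]
    simp
  | succ k ih =>
    intro hk R C hR hC
    obtain ⟨R', C', u, hu, v, hv, rfl, rfl, a1, a2⟩ := exists_up hR hC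
    have b1 := ih (by omega) R' C' a1 a2
    have b2 := H.col R' C' k a1 a2 (by omega) v hv
    have hc := card_erase_add_one hv
    have O := rowO_iter h H B hη hM hT j (k + 1) (by omega) R' (C'.erase v) (by omega) (by omega)
    have b3 := B _ _ (k + 1) hR hC (by omega)
    set N : ℝ := (Fintype.card V : ℝ) with hN
    have hN0 : 0 < N := by rw [hN]; exact_mod_cast (by omega : 0 < Fintype.card V)
    set o := 0.9 ^ j * (2 * M) + 60 * T * M / N + 40 * η with ho
    have o0 : 0 ≤ o := by positivity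
    set a := e (R'.erase u) (C'.erase v) with ha
    obtain ⟨m1, m2⟩ := h.mass_col v R'
    rw [card_compl_real (k := k) (by omega)] at m1
    rw [← hN] at m1 m2
    have b4 : |∑ x ∈ R', (1 + Y x v) * e (R'.erase x) (C'.erase v) -
        (∑ x ∈ R', (1 + Y x v)) * a| ≤ N * o := by
      rw [sum_mul, ← sum_sub_distrib]
      refine (abs_sum_le_sum_abs _ _).trans (le_trans ?_ (mul_le_mul_of_nonneg_right m2 o0))
      rw [sum_mul]
      refine sum_le_sum fun x hx => ?_
      rw [← mul_sub, abs_mul, abs_of_nonneg (h.nonneg _ _)]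
      refine mul_le_mul_of_nonneg_left (abs_le.2 ⟨?_, O x hx u hu⟩) (h.nonneg _ _)
      linarith [O u hu x hx]
    have kT : (k : ℝ) ≤ T := by exact_mod_cast (by omega : k ≤ T)
    have b5 : |(N - ∑ x ∈ R', (1 + Y x v)) * a| ≤ 2 * T * M := by
      rw [abs_mul]
      exact mul_le_mul (abs_le.2 ⟨by linarith, by linarith⟩) b3 (abs_nonneg _) (by positivity)
    have b6 : |N * (a - e R' C')| ≤ N * g := by
      have : N * g = N * η + N * o + 2 * T * M := by rw [hg, ho]; field_simp; ring
      rw [this, abs_le]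
      obtain ⟨p1, p2⟩ := abs_le.1 b2
      obtain ⟨p3, p4⟩ := abs_le.1 b4
      obtain ⟨p5, p6⟩ := abs_le.1 b5
      constructor <;> nlinarith
    rw [abs_mul, abs_of_pos hN0] at b6
    have b7 := le_of_mul_le_mul_left b6 hN0
    have := abs_sub_abs_le_abs_sub a (e R' C')
    push_cast
    linarith

end Pool.Agent.P.MP_012ca0_co.Ev
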