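import Pool.Agent.P.MP_012ca0_co.Ev.Lim

/-! The asymptotic formula for regular tournaments. -/

set_option autoImplicit false
set_option linter.unusedSectionVars false

open Finset Filter Topology

noncomputable section

namespace Pool.Agent.P.MP_012ca0_co.Ev

lemma ev_num {η : ℝ} (hη : 0 < η) : ∀ᶠ n : ℕ in atTop, ∃ j, Num n (1 / (n : ℝ) ^ 3) j ∧
    Real.exp 3 * (2 * (400000 * (4 * j + 1) ^ 3 / n) + (2 * KK + 11) / n) ≤ η := by
  have E := Real.exp_pos 3
  set η' := min 1 (η / (4 * Real.exp 3)) with hη'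
  have p : 0 < η' := lt_min one_pos (by positivity)
  have tl : Tendsto (fun n => Nat.log 2 n + 1) atTop atTop := tendsto_atTop_atTop.2 fun M =>
    ⟨2 ^ M, fun n hn => (Nat.le_log_of_pow_le one_lt_two hn).trans (Nat.le_succ _)⟩
  have a := tl.eventually (((tendsto_pow_const_div_const_pow_of_one_lt 3
    (r := 2) one_lt_two).const_mul (800000 * 57 ^ 3)).eventually_le_const (by simpa using p))
  have b := (Nat.tendsto_div_const_atTop (n := 400) (by norm_num)).eventually
    (((tendsto_pow_const_mul_const_pow_of_abs_lt_one 4 (r := 0.91)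
      (by norm_num [abs_of_pos])).const_mul (2 * 800 ^ 4)).eventually_le_const
        (show _ < (1 : ℝ) by simp))
  have c := (tendsto_const_div_atTop_nhds_zero_nat (2 * KK + 11)).eventually_le_const
    (show (0 : ℝ) < η / (2 * Real.exp 3) by positivity)
  filter_upwards [a, b, c, eventually_ge_atTop 4000] with n a b c d
  set m := Nat.log 2 n + 1 with hm
  have hN : (0 : ℝ) < n := by exact_mod_cast (by omega : 0 < n)
  have m1 : (n : ℝ) ≤ 2 ^ m := by exact_mod_cast (Nat.lt_pow_succ_log_self one_lt_two n).le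
  have m2 : (2 : ℝ) ^ m ≤ 2 * n := by
    have := Nat.pow_log_le_self 2 (by omega : n ≠ 0)
    rw [hm, pow_succ, mul_comm]
    exact_mod_cast Nat.mul_le_mul_left 2 this
  have m3 : (1 : ℝ) ≤ m := by exact_mod_cast (by omega : 1 ≤ m)
  have k : (400000 : ℝ) * (4 * (14 * m : ℕ) + 1) ^ 3 / n ≤ η' := by
    refine le_trans ?_ a
    rw [← mul_div_assoc, div_le_div_iff₀ hN (by positivity)]
    calc _ ≤ (400000 : ℝ) * (57 * m) ^ 3 * (2 * n) := by
          gcongr
          push_cast
          linarith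
      _ = _ := by ring
  refine ⟨14 * m, ⟨by positivity, d, ?_, ?_, ?_⟩, ?_⟩
  · have q : (n : ℝ) ≤ 800 * (n / 400 : ℕ) := by exact_mod_cast (by omega : n ≤ 800 * (n / 400))
    rw [le_div_iff₀ hN]
    refine le_trans ?_ b
    calc _ = 2 * (n : ℝ) ^ 4 * 0.91 ^ (n / 400) := by field_simp
      _ ≤ 2 * (800 * (n / 400 : ℕ) : ℝ) ^ 4 * 0.91 ^ (n / 400) := by gcongr
      _ = _ := by ring
  · calc (0.9 : ℝ) ^ (14 * m) ≤ (1 / 2 ^ 2) ^ m := by
          rw [pow_mul]; gcongr; norm_num
      _ = 1 / (2 ^ m) ^ 2 := by rw [div_pow, one_pow, ← pow_mul, ← pow_mul, mul_comm]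
      _ ≤ _ := by gcongr
  · have := k.trans (min_le_left _ _)
    rw [div_le_one hN] at this
    exact_mod_cast this
  · have := k.trans (min_le_right _ _)
    calc _ ≤ Real.exp 3 * (2 * (η / (4 * Real.exp 3)) + η / (2 * Real.exp 3)) := by gcongr
      _ = η := by field_simp; ring

/-- the skew sign matrix of a regular tournament -/
structure Tour {n : ℕ} (adj : Fin n → Fin n → Prop) (S : Fin n → Fin n → ℝ) : Prop where
  odd : Odd n
  irr : ∀ v, ¬ adj v v
  tot : ∀ v w, v ≠ w → (adj v w ↔ ¬ adj w v)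
  reg : ∀ v, {w : Fin n | adj v w}.ncard = (n - 1) / 2
  diag : ∀ v, S v v = 0
  val : ∀ v w, adj v w → S v w = 1 ∧ S w v = -1

variable {n : ℕ} {adj : Fin n → Fin n → Prop} {S : Fin n → Fin n → ℝ}

open Classical in
lemma Tour.eq (T : Tour adj S) (v w : Fin n) :
    S v w = 2 * (if adj v w then 1 else 0) - 1 + if v = w then 1 else 0 := by
  by_cases e : v = w
  · simp [e, T.diag, T.irr]
  · by_cases a : adj v w
    · rw [(T.val v w a).1, if_pos a, if_neg e]; norm_num
    · rw [(T.val w v (by_contra fun b => a ((T.tot v w e).2 b))).2, if_neg a, if_neg e]; norm_num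

lemma Tour.cases (T : Tour adj S) (v w : Fin n) (e : v ≠ w) :
    (S v w = 1 ∧ S w v = -1) ∨ (S w v = 1 ∧ S v w = -1) := by
  by_cases a : adj v w
  · exact Or.inl (T.val v w a)
  · exact Or.inr (T.val w v (by_contra fun b => a ((T.tot v w e).2 b)))

lemma Tour.good (T : Tour adj S) : Good S := by
  classical
  refine ⟨fun v w => ?_, fun v w => ?_, fun v => ?_⟩
  · by_cases e : v = w
    · simp [e, T.diag]
    · rcases T.cases v w e with h | h <;> simp [h]
  · by_cases e : v = w
    · simp [e, T.diag]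
    · rcases T.cases v w e with h | h <;> simp [h]
  · have a := T.reg v
    rw [Set.ncard_eq_toFinset_card', Set.toFinset_ofPred] at a
    obtain ⟨k, rfl⟩ := T.odd
    simp only [T.eq v, sum_add_distrib, sum_sub_distrib, ← mul_sum, sum_ite_eq]
    rw [sum_boole, a]
    simp

lemma Tour.sum_sq (T : Tour adj S) : ∑ v, ∑ w, S v w ^ 2 = (n : ℝ) * (n - 1) := by
  have : ∀ v w, S v w ^ 2 = 1 - if v = w then 1 else 0 := fun v w => by
    by_cases e : v = w
    · simp [e, T.diag]
    · rcases T.cases v w e with h | h <;> simp [h, e]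
  simp [this, mul_sub]

lemma Tour.hw (T : Tour adj S) : HW (fun u v => 1 + S u v) = 2 ^ n *
    ({c : Equiv.Perm (Fin n) | c.IsCycle ∧ c.support = univ ∧ ∀ v, adj v (c v)}.ncard : ℕ) := by
  classical
  rw [Set.ncard_eq_toFinset_card', Set.toFinset_ofPred, HW, ← sum_boole, mul_sum]
  refine sum_congr rfl fun σ _ => ?_
  by_cases h : Ham σ
  · have m : ∀ x, σ x ≠ x := fun x => Equiv.Perm.mem_support.1 (h.2 ▸ mem_univ x)
    rw [if_pos h]
    by_cases g : ∀ v, adj v (σ v)
    · rw [if_pos ⟨h.1, h.2, g⟩, prod_congr rfl fun v _ => by rw [(T.val _ _ (g v)).1]]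
      norm_num
    · rw [if_neg fun c => g c.2.2, mul_zero]
      push Not at g
      obtain ⟨v, g⟩ := g
      exact prod_eq_zero (mem_univ v) (by rw [T.eq, if_neg g, if_neg (m v).symm]; norm_num)
  · rw [if_neg h, if_neg fun c => h ⟨c.1, c.2.1⟩, mul_zero]

theorem asym {ε : ℝ} (hε : 0 < ε) : ∀ᶠ n : ℕ in atTop, ∀ (adj : Fin n → Fin n → Prop)
    (S : Fin n → Fin n → ℝ), Tour adj S → ∀ l, Spec S l →
      |(({c : Equiv.Perm (Fin n) | c.IsCycle ∧ c.support = univ ∧ ∀ v, adj v (c v)}.ncard : ℕ) : ℝ)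
        / (((n - 1).factorial : ℝ) / 2 ^ n) - Real.exp (LL l 1)| ≤ ε := by
  filter_upwards [ev_num hε] with n ⟨j, H, e⟩ adj S T l hs
  have := hw_one T.good hs (j := j) (by simpa using H)
  rw [Fintype.card_fin, T.hw] at this
  refine le_trans (le_of_eq ?_) (this.trans e)
  have hb := H.big
  obtain ⟨k, rfl⟩ : ∃ k, n = k + 1 := ⟨n - 1, by omega⟩
  rw [Nat.add_sub_cancel, Nat.factorial_succ]
  push_cast
  congr 2
  field_simp

variable {V : Type} [Fintype V] [DecidableEq V] {Y : V → V → ℝ} {l : V → ℝ}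

lemma Spec.exp_LL (h : Good Y) (hs : Spec Y l) :
    Real.exp (LL l 1) = (1 + XX Y).det / √(1 + XX Y * XX Y).det := by
  have a := hs.det_eq h 1
  rw [one_smul] at a
  rw [LL, Real.exp_sub, a, hs.det2, Real.exp_half (∑ i, Real.log (1 - 1 ^ 2 * l i)), Real.exp_sum]
  congr 2
  exact prod_congr rfl fun i _ => by
    rw [Real.exp_log (by linarith [hs.le i])]; ring

lemma Spec.le_LL (hs : Spec Y l) : ∑ i, l i ≤ LL l 1 := by
  rw [LL, ← sub_div, ← sum_sub_distrib, sum_div]
  refine sum_le_sum fun i _ => ?_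
  have a := hs.nonneg i
  have b := hs.le i
  have := Real.sum_range_le_log_div a (by linarith) 1
  rw [Real.log_div (by linarith) (by linarith)] at this
  simp at this ⊢
  linarith

end Pool.Agent.P.MP_012ca0_co.Ev
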